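import Mathlib
import Pool.Graph.R_seed8.H642R3.Hom.Syntax

set_option autoImplicit false

/-!
# Fragments, universal closures and the sentence `δ_A`
-/

namespace Pool.Agent.KS6_52.KH

open Pool.Agent.H642R3.Hom

variable {σ : Signature}

/-- Formulas built from equations with `⇒` and `∀` only. -/
inductive AllImp : {Γ : List σ.Srt} → Fm σ Γ → Prop
  | eq {Γ : List σ.Srt} {A : σ.Srt} (s t : Tm σ Γ A) : AllImp (Fm.eq s t)
  | imp {Γ : List σ.Srt} {φ ψ : Fm σ Γ} (hφ : AllImp φ) (hψ : AllImp ψ) : AllImp (φ.imp ψ)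
  | all {Γ : List σ.Srt} {A : σ.Srt} {φ : Fm σ (A :: Γ)} (hφ : AllImp φ) : AllImp (φ.all A)

/-- Coherent formulas: built from equations with `⊤`, `⊥`, `∧`, `∨` and `∃`. -/
inductive Coherent : {Γ : List σ.Srt} → Fm σ Γ → Prop
  | top {Γ : List σ.Srt} : Coherent (Fm.top : Fm σ Γ)
  | bot {Γ : List σ.Srt} : Coherent (Fm.bot : Fm σ Γ)
  | eq {Γ : List σ.Srt} {A : σ.Srt} (s t : Tm σ Γ A) : Coherent (Fm.eq s t)
  | and {Γ : List σ.Srt} {φ ψ : Fm σ Γ} (hφ : Coherent φ) (hψ : Coherent ψ) : Coherent (φ.and ψ)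
  | or {Γ : List σ.Srt} {φ ψ : Fm σ Γ} (hφ : Coherent φ) (hψ : Coherent ψ) : Coherent (φ.or ψ)
  | ex {Γ : List σ.Srt} {A : σ.Srt} {φ : Fm σ (A :: Γ)} (hφ : Coherent φ) : Coherent (φ.ex A)

/-- The universal closure `∀ x₁ … xₙ, φ` of a formula in context. -/
def closure : {Γ : List σ.Srt} → Fm σ Γ → Sentence σ
  | [], φ => φ
  | A :: _, φ => closure (φ.all A)

/-- `∀ u v : A, u = v`. -/
def oneElt (A : σ.Srt) (Γ : List σ.Srt) : Fm σ Γ :=
  .all A (.all A (.eq (A := A) (.var (.succ .zero)) (.var .zero)))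

/-- `φ ⇒ ∀ u v : A, u = v`. -/
def ng (A : σ.Srt) {Γ : List σ.Srt} (φ : Fm σ Γ) : Fm σ Γ := φ.imp (oneElt A Γ)

/-- `x = y`, where `y` is the first and `x` the second variable. -/
def eqXY (A : σ.Srt) (Γ : List σ.Srt) : Fm σ (A :: A :: Γ) :=
  .eq (A := A) (.var (.succ .zero)) (.var .zero)

/-- `D(x)`: `∀ y : A, ∼∼ x = y ⇒ x = y`. -/
def dec (A : σ.Srt) (Γ : List σ.Srt) : Fm σ (A :: Γ) :=
  .all A ((ng A (ng A (eqXY A Γ))).imp (eqXY A Γ))

/-- The sentence `δ_A`: `∀ x : A, ∼∼ D(x) ⇒ D(x)`. -/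
def delta (A : σ.Srt) : Sentence σ := .all A ((ng A (ng A (dec A []))).imp (dec A []))

theorem allImp_oneElt (A : σ.Srt) (Γ : List σ.Srt) : AllImp (oneElt A Γ) := .all (.all (.eq _ _))

theorem allImp_ng (A : σ.Srt) {Γ : List σ.Srt} {φ : Fm σ Γ} (h : AllImp φ) : AllImp (ng A φ) :=
  .imp h (allImp_oneElt A Γ)

theorem allImp_dec (A : σ.Srt) (Γ : List σ.Srt) : AllImp (dec A Γ) :=
  .all (.imp (allImp_ng A (allImp_ng A (.eq _ _))) (.eq _ _))

theorem allImp_delta (A : σ.Srt) : AllImp (delta A) :=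
  .all (.imp (allImp_ng A (allImp_ng A (allImp_dec A []))) (allImp_dec A []))

/-- Axioms: instances `ψ ∨ ¬ψ` of excluded middle for sentences, and the universal closures of
the instances `¬φ ∨ ¬¬φ` of weak excluded middle for arbitrary formulas. -/
def IsEmWem (χ : Sentence σ) : Prop :=
  (∃ ψ : Sentence σ, χ = ψ.or ψ.neg) ∨
    ∃ (Γ : List σ.Srt) (φ : Fm σ Γ), χ = closure (φ.neg.or φ.neg.neg)

end Pool.Agent.KS6_52.KH
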