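import Mathlib
import Pool.Graph.R_seed8.H642R3.Hom.Truth

set_option autoImplicit false

/-!
# Composition of families of paths in Kan complexes
-/

open CategoryTheory Limits MonoidalCategory CartesianMonoidalCategory Opposite Simplicial

namespace Pool.Agent.KS6_52.KH

open Pool.Agent.H642R3.Hom

/-- a path in the internal hom, regarded as a family of paths -/
noncomputable def unflip {X Z : SSet.{0}} (r : (Δ[1] : SSet.{0}) ⟶ (ihom Z).obj X) :
    Z ⟶ pathSpace X :=
  MonoidalClosed.curry ((β_ (Δ[1] : SSet.{0}) Z).hom ≫ MonoidalClosed.uncurry r)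

/-- a family of paths, regarded as a path in the internal hom -/
noncomputable def flp {X Z : SSet.{0}} (p : Z ⟶ pathSpace X) :
    (Δ[1] : SSet.{0}) ⟶ (ihom Z).obj X :=
  MonoidalClosed.curry ((β_ Z (Δ[1] : SSet.{0})).hom ≫ MonoidalClosed.uncurry p)

theorem unflip_flp {X Z : SSet.{0}} (p : Z ⟶ pathSpace X) : unflip (flp p) = p := by
  unfold unflip flp
  rw [MonoidalClosed.uncurry_curry, ← Category.assoc, SymmetricCategory.symmetry,
    Category.id_comp]
  exact MonoidalClosed.curry_uncurry p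

/-- evaluation of a vertex of the internal hom -/
noncomputable def evv {X Z : SSet.{0}} (u : (Δ[0] : SSet.{0}) ⟶ (ihom Z).obj X) : Z ⟶ X :=
  lift (𝟙 Z) (SSet.const (SSet.stdSimplex.obj₀Equiv.symm 0)) ≫ MonoidalClosed.uncurry u

theorem unflip_endpoint {X Z : SSet.{0}} (r : (Δ[1] : SSet.{0}) ⟶ (ihom Z).obj X) (i : Fin 2) :
    unflip r ≫ endpoint X i = evv (SSet.const (SSet.stdSimplex.obj₀Equiv.symm i) ≫ r) := by
  unfold unflip evv
  refine (curry_endpoint _ i).trans ?_
  rw [MonoidalClosed.uncurry_natural_left, ← Category.assoc, ← Category.assoc, lift_whiskerLeft,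
    SSet.comp_const]
  congr 1

theorem evv_inj {X Z : SSet.{0}} {u v : (Δ[0] : SSet.{0}) ⟶ (ihom Z).obj X}
    (h : evv u = evv v) : u = v := by
  have key : ∀ w : (Δ[0] : SSet.{0}) ⟶ (ihom Z).obj X,
      MonoidalClosed.uncurry w = fst Z (Δ[0] : SSet.{0}) ≫ evv w := by
    intro w
    unfold evv
    rw [← Category.assoc]
    have h1 : fst Z (Δ[0] : SSet.{0}) ≫
        lift (𝟙 Z) (SSet.const (SSet.stdSimplex.obj₀Equiv.symm 0)) = 𝟙 (Z ⊗ (Δ[0] : SSet.{0})) := by
      apply CartesianMonoidalCategory.hom_ext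
      · rw [Category.assoc, lift_fst, Category.comp_id, Category.id_comp]
      · exact SSet.stdSimplex.isTerminalObj₀.hom_ext _ _
    rw [h1, Category.id_comp]
  have h2 : MonoidalClosed.uncurry u = MonoidalClosed.uncurry v := by rw [key, key, h]
  exact (MonoidalClosed.uncurry_injective h2)

/-- Composition of families of paths with the same origin. -/
theorem path_comp {X Z : SSet.{0}} [SSet.KanComplex X] (p q : Z ⟶ pathSpace X)
    (h : p ≫ endpoint X 0 = q ≫ endpoint X 0) :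
    ∃ r : Z ⟶ pathSpace X, r ≫ endpoint X 0 = p ≫ endpoint X 1 ∧
      r ≫ endpoint X 1 = q ≫ endpoint X 1 := by
  have hp := unflip_flp p
  have hq := unflip_flp q
  set P := flp p
  set Q := flp q
  have h0 : SSet.stdSimplex.δ (1 : Fin 2) ≫ P = SSet.stdSimplex.δ (1 : Fin 2) ≫ Q := by
    apply evv_inj
    rw [SSet.stdSimplex.δ_one_eq_const, ← unflip_endpoint, ← unflip_endpoint, hp, hq, h]
  let f : ∀ (j : Fin 3) (_ : j ≠ 0), (Δ[1] : SSet.{0}) ⟶ (ihom Z).obj X :=
    fun j _ => if j = 1 then Q else P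
  have hf : SSet.horn.IsCompatible (i := (0 : Fin 3)) f := by
    rw [SSet.horn.isCompatible_iff]
    intro j k hj hk hjk
    have key : ∀ j k : Fin 3, j ≠ 0 → k ≠ 0 → j < k → j = 1 ∧ k = 2 := by decide
    obtain ⟨rfl, rfl⟩ := key j k hj hk hjk
    exact h0.symm
  obtain ⟨φ, hφ⟩ := hf.exists_lift_of_kanComplex
  have h1 : SSet.stdSimplex.δ (1 : Fin 3) ≫ φ = Q := hφ 1 (by decide)
  have h2 : SSet.stdSimplex.δ (2 : Fin 3) ≫ φ = P := hφ 2 (by decide)
  refine ⟨unflip (SSet.stdSimplex.δ (0 : Fin 3) ≫ φ), ?_, ?_⟩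
  · rw [unflip_endpoint, ← hp, unflip_endpoint, ← SSet.stdSimplex.δ_one_eq_const,
      ← SSet.stdSimplex.δ_zero_eq_const, ← h2, ← Category.assoc, ← Category.assoc]
    congr 2
    exact (SSet.stdSimplex.δ_comp_δ (i := (0 : Fin 2)) (j := (1 : Fin 2)) (by decide)).symm
  · rw [unflip_endpoint, ← hq, unflip_endpoint, ← SSet.stdSimplex.δ_zero_eq_const,
      ← h1, ← Category.assoc, ← Category.assoc]
    rfl

/-- The constant path. -/
theorem path_refl {X Z : SSet.{0}} (a : Z ⟶ X) :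
    ∃ r : Z ⟶ pathSpace X, r ≫ endpoint X 0 = a ∧ r ≫ endpoint X 1 = a := by
  refine ⟨MonoidalClosed.curry (snd (Δ[1] : SSet.{0}) Z ≫ a), ?_, ?_⟩
  · refine (curry_endpoint _ _).trans ?_
    rw [← Category.assoc, lift_snd, Category.id_comp]
  · refine (curry_endpoint _ _).trans ?_
    rw [← Category.assoc, lift_snd, Category.id_comp]

/-- Families of paths can be reversed. -/
theorem path_symm {X Z : SSet.{0}} [SSet.KanComplex X] (p : Z ⟶ pathSpace X) :
    ∃ r : Z ⟶ pathSpace X, r ≫ endpoint X 0 = p ≫ endpoint X 1 ∧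
      r ≫ endpoint X 1 = p ≫ endpoint X 0 := by
  obtain ⟨c, hc0, hc1⟩ := path_refl (p ≫ endpoint X 0)
  obtain ⟨r, h0, h1⟩ := path_comp p c hc0.symm
  exact ⟨r, h0, h1.trans hc1⟩

end Pool.Agent.KS6_52.KH
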