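import Mathlib
import Pool.Graph.R_seed8.H642R3.Hom.Truth
import Pool.Agent.KS6_52.KH.Path

set_option autoImplicit false

/-!
# Kripke-Joyal clauses for the homotopical semantics
-/

open CategoryTheory Limits MonoidalCategory CartesianMonoidalCategory Opposite Simplicial

namespace Pool.Agent.KS6_52.KH

open Pool.Agent.H642R3.Hom

variable {σ : Signature} {M : Str σ} (I : Interpretation M)

/-- `φ` is forced at the stage `c : Z ⟶ M(Γ)`. -/
def G {Γ : List σ.Srt} {Z : SSet.{0}} (c : Z ⟶ M.ctx Γ) (φ : Fm σ Γ) : Prop :=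
  I.F (Over.mk c) φ

variable {I}

theorem G_mono {Γ : List σ.Srt} {Y Z : SSet.{0}} (f : Y ⟶ Z) {c : Z ⟶ M.ctx Γ} {φ : Fm σ Γ}
    (h : G I c φ) : G I (f ≫ c) φ :=
  I.f_of_hom (Over.homMk f rfl : Over.mk (f ≫ c) ⟶ Over.mk c) h

theorem F_of_G {Γ : List σ.Srt} {D : Over (M.ctx Γ)} {φ : Fm σ Γ} (h : G I D.hom φ) : I.F D φ :=
  I.f_of_hom (Over.homMk (𝟙 _) (Category.id_comp _) : D ⟶ Over.mk D.hom) h

theorem G_of_F {Γ : List σ.Srt} {D : Over (M.ctx Γ)} {φ : Fm σ Γ} (h : I.F D φ) : G I D.hom φ :=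
  I.f_of_hom (Over.homMk (𝟙 _) (Category.id_comp _) : Over.mk D.hom ⟶ D) h

theorem G_all {Γ : List σ.Srt} {Z : SSet.{0}} (c : Z ⟶ M.ctx Γ) (A : σ.Srt) (φ : Fm σ (A :: Γ)) :
    G I c (φ.all A) ↔ ∀ (Y : SSet.{0}) (f : Y ⟶ Z) (a : Y ⟶ M.obj A),
      G I (M.cons a (f ≫ c)) φ := by
  unfold G
  rw [Interpretation.f_all]
  constructor
  · intro h Y f a
    refine I.f_of_hom (Over.homMk (pullback.lift f (M.cons a (f ≫ c)) ?_) ?_) h
    · exact (M.cons_proj _ _).symm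
    · exact pullback.lift_snd _ _ _
  · intro h
    have h1 := h _ (pullback.fst c (M.proj A Γ))
      (pullback.snd c (M.proj A Γ) ≫ M.tm (.var .zero))
    refine I.f_of_hom (D := (Over.pullback (M.proj A Γ)).obj (Over.mk c))
      (D' := Over.mk (M.cons (pullback.snd c (M.proj A Γ) ≫ M.tm (.var .zero))
        (pullback.fst c (M.proj A Γ) ≫ c))) (Over.homMk (𝟙 _) ?_) h1
    change 𝟙 _ ≫ M.cons _ _ = pullback.snd c (M.proj A Γ)
    rw [Category.id_comp]
    apply CartesianMonoidalCategory.hom_ext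
    · exact lift_fst _ _
    · refine (lift_snd _ _).trans ?_
      exact pullback.condition

theorem G_imp {Γ : List σ.Srt} {Z : SSet.{0}} (c : Z ⟶ M.ctx Γ) (φ ψ : Fm σ Γ) :
    G I c (φ.imp ψ) ↔ ∀ (Y : SSet.{0}) (f : Y ⟶ Z), G I (f ≫ c) φ → G I (f ≫ c) ψ := by
  constructor
  · intro h Y f hφ
    have h1 := G_mono f h
    unfold G at h1
    rw [Interpretation.f_imp] at h1
    obtain ⟨k⟩ := hφ
    exact I.f_of_hom (prod.lift k (𝟙 _)) h1
  · intro h
    unfold G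
    rw [Interpretation.f_imp]
    let u : I.obj φ ⨯ Over.mk c ⟶ Over.mk c := prod.snd
    let f : (I.obj φ ⨯ Over.mk c).left ⟶ Z := u.left
    have hu : f ≫ c = (I.obj φ ⨯ Over.mk c).hom := Over.w u
    have h1 := h _ f (by
      rw [hu]
      exact G_of_F (I.f_of_hom (prod.fst : I.obj φ ⨯ Over.mk c ⟶ I.obj φ) (I.f_self φ)))
    rw [hu] at h1
    exact F_of_G h1

theorem G_eq {Γ : List σ.Srt} {Z : SSet.{0}} (c : Z ⟶ M.ctx Γ) {A : σ.Srt} (s t : Tm σ Γ A) :
    G I c (Fm.eq s t) ↔ ∃ h : Z ⟶ pathSpace (M.obj A),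
      h ≫ endpoint (M.obj A) 0 = c ≫ M.tm s ∧ h ≫ endpoint (M.obj A) 1 = c ≫ M.tm t := by
  unfold G
  rw [Interpretation.f_eq]
  constructor
  · rintro ⟨h, e⟩
    refine ⟨h, ?_, ?_⟩
    · have := congrArg (fun z => z ≫ fst _ _) e
      simp only [Category.assoc, lift_fst, ends] at this
      exact this.symm
    · have := congrArg (fun z => z ≫ snd _ _) e
      simp only [Category.assoc, lift_snd, ends] at this
      exact this.symm
  · rintro ⟨h, h0, h1⟩
    refine ⟨h, ?_⟩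
    change c ≫ _ = _
    rw [ends, comp_lift, comp_lift, h0, h1]

theorem G_of_empty {Γ : List σ.Srt} {Z : SSet.{0}} (hZ : ¬ Z.Nonempty) (c : Z ⟶ M.ctx Γ)
    (φ : Fm σ Γ) : G I c φ :=
  ⟨Over.homMk ((SSet.isInitialOfNotNonempty hZ).to _)
    ((SSet.isInitialOfNotNonempty hZ).hom_ext _ _)⟩

theorem true_iff (φ : Sentence σ) : I.True φ ↔ G I (𝟙 (M.ctx [])) φ := by
  constructor
  · rintro ⟨x⟩
    exact ⟨Over.homMk (SSet.const x) (toUnit_unique _ _)⟩
  · exact I.true_of_force φ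

/-- the piece of `R` on which a locally constant function takes the value `i` -/
def piece {R : SSet.{0}} {ι : Type} (c : ∀ n, R.obj n → ι)
    (hc : ∀ n m (f : n ⟶ m) (ρ : R.obj n), c m (R.map f ρ) = c n ρ) (i : ι) :
    R.Subcomplex where
  obj n := {ρ | c n ρ = i}
  map := by
    intro n m f ρ hρ
    exact (hc n m f ρ).trans hρ

theorem glue {R X : SSet.{0}} {ι : Type} (c : ∀ n, R.obj n → ι)
    (hc : ∀ n m (f : n ⟶ m) (ρ : R.obj n), c m (R.map f ρ) = c n ρ) (k : R ⟶ X) (T : Over X)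
    (h : ∀ i, Nonempty (Over.mk ((piece c hc i).ι ≫ k) ⟶ T)) : Nonempty (Over.mk k ⟶ T) := by
  let g : ∀ i, Over.mk ((piece c hc i).ι ≫ k) ⟶ T := fun i => (h i).some
  have key : ∀ (n : SimplexCategoryᵒᵖ) (ρ : R.obj n) (i : ι) (hi : c n ρ = i),
      (g (c n ρ)).left.app n (⟨ρ, rfl⟩ : ((piece c hc (c n ρ)) : SSet.{0}).obj n) =
        (g i).left.app n (⟨ρ, hi⟩ : ((piece c hc i) : SSet.{0}).obj n) := by
    intro n ρ i hi
    subst hi
    rfl
  let G' : R ⟶ T.left :=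
    { app := fun n => ↾fun ρ =>
        (g (c n ρ)).left.app n (⟨ρ, rfl⟩ : ((piece c hc (c n ρ)) : SSet.{0}).obj n)
      naturality := by
        intro n m f
        ext ρ
        refine (key m (R.map f ρ) (c n ρ) (hc n m f ρ)).trans ?_
        have := (g (c n ρ)).left.naturality f
        exact ConcreteCategory.congr_hom this
          (⟨ρ, rfl⟩ : ((piece c hc (c n ρ)) : SSet.{0}).obj n) }
  refine ⟨Over.homMk G' ?_⟩
  ext n ρ
  have := Over.w (g (c n ρ))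
  exact congrArg (fun z => z.app n (⟨ρ, rfl⟩ : ((piece c hc (c n ρ)) : SSet.{0}).obj n)) this

end Pool.Agent.KS6_52.KH
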