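import Mathlib
import Pool.Agent.KS6_52.KH.Defs
import Pool.Agent.KS6_52.KH.KJ

set_option autoImplicit false

/-!
# The sentence `δ_A` is true in all structures in `Kan`
-/

open CategoryTheory Limits MonoidalCategory CartesianMonoidalCategory Opposite Simplicial

namespace Pool.Agent.KS6_52.KH

open Pool.Agent.H642R3.Hom

/-- the point as a stage -/
noncomputable abbrev ptm {Z : SSet.{0}} (z : Z _⦋0⦌) : (Δ[0] : SSet.{0}) ⟶ Z := SSet.const z

/-- there is a family of paths from `a` to `b` -/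
def Pth {X Z : SSet.{0}} (a b : Z ⟶ X) : Prop :=
  ∃ h : Z ⟶ pathSpace X, h ≫ endpoint X 0 = a ∧ h ≫ endpoint X 1 = b

section pth

variable {X : SSet.{0}}

theorem Pth.mono {Y Z : SSet.{0}} {a b : Z ⟶ X} (h : Pth a b) (f : Y ⟶ Z) :
    Pth (f ≫ a) (f ≫ b) := by
  obtain ⟨k, h0, h1⟩ := h
  exact ⟨f ≫ k, by rw [Category.assoc, h0], by rw [Category.assoc, h1]⟩

theorem Pth.refl {Z : SSet.{0}} (a : Z ⟶ X) : Pth a a := path_refl a

theorem Pth.comp [SSet.KanComplex X] {Z : SSet.{0}} {a b c : Z ⟶ X} (h : Pth a b)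
    (h' : Pth a c) : Pth b c := by
  obtain ⟨p, h0, h1⟩ := h
  obtain ⟨q, k0, k1⟩ := h'
  obtain ⟨r, e0, e1⟩ := path_comp p q (h0.trans k0.symm)
  exact ⟨r, e0.trans h1, e1.trans k1⟩

theorem Pth.symm [SSet.KanComplex X] {Z : SSet.{0}} {a b : Z ⟶ X} (h : Pth a b) : Pth b a :=
  h.comp (Pth.refl a)

theorem Pth.trans [SSet.KanComplex X] {Z : SSet.{0}} {a b c : Z ⟶ X} (h : Pth a b)
    (h' : Pth b c) : Pth a c := h.symm.comp h'

theorem Pth.of_empty {Z : SSet.{0}} (hZ : ¬ Z.Nonempty) (a b : Z ⟶ X) : Pth a b :=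
  ⟨(SSet.isInitialOfNotNonempty hZ).to _, (SSet.isInitialOfNotNonempty hZ).hom_ext _ _,
    (SSet.isInitialOfNotNonempty hZ).hom_ext _ _⟩

/-- an edge gives a path -/
theorem Pth.edge (e : (Δ[1] : SSet.{0}) ⟶ X) :
    Pth (Z := (Δ[0] : SSet.{0})) (SSet.const (SSet.stdSimplex.obj₀Equiv.symm 0) ≫ e)
      (SSet.const (SSet.stdSimplex.obj₀Equiv.symm 1) ≫ e) := by
  refine ⟨MonoidalClosed.curry (fst (Δ[1] : SSet.{0}) (Δ[0] : SSet.{0}) ≫ e), ?_, ?_⟩
  · refine (curry_endpoint _ _).trans ?_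
    rw [← Category.assoc, lift_fst]
  · refine (curry_endpoint _ _).trans ?_
    rw [← Category.assoc, lift_fst]

theorem Pth.of_edge {Y : SSet.{0}} (w : Y _⦋1⦌) (x : Y ⟶ X) :
    Pth (ptm (Y.map (SimplexCategory.const ⦋0⦌ ⦋1⦌ 0).op w) ≫ x)
      (ptm (Y.map (SimplexCategory.const ⦋0⦌ ⦋1⦌ 1).op w) ≫ x) := by
  have h := Pth.edge (SSet.yonedaEquiv.symm w ≫ x)
  have e : ∀ i : Fin 2, (SSet.const (SSet.stdSimplex.obj₀Equiv.symm i) :
      (Δ[0] : SSet.{0}) ⟶ (Δ[1] : SSet.{0})) ≫ SSet.yonedaEquiv.symm w =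
      ptm (Y.map (SimplexCategory.const ⦋0⦌ ⦋1⦌ i).op w) :=
    fun i => (SSet.const_comp _ _).trans rfl
  rw [← Category.assoc, ← Category.assoc, e, e] at h
  exact h

theorem Pth.vertices [SSet.KanComplex X] {Y : SSet.{0}} {n : ℕ} (ρ : Y _⦋n⦌) (x : Y ⟶ X)
    (j : Fin (n + 1)) :
    Pth (ptm (Y.map (SimplexCategory.const ⦋0⦌ ⦋n⦌ 0).op ρ) ≫ x)
      (ptm (Y.map (SimplexCategory.const ⦋0⦌ ⦋n⦌ j).op ρ) ≫ x) := by
  have h := Pth.of_edge (Y.map (SimplexCategory.mkOfLe 0 j (Fin.zero_le j)).op ρ) x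
  have e : ∀ i : Fin 2, Y.map (SimplexCategory.const ⦋0⦌ ⦋1⦌ i).op
      (Y.map (SimplexCategory.mkOfLe 0 j (Fin.zero_le j)).op ρ) =
      Y.map (SimplexCategory.const ⦋0⦌ ⦋n⦌
        ((SimplexCategory.mkOfLe 0 j (Fin.zero_le j)).toOrderHom i)).op ρ := by
    intro i
    rw [← CategoryTheory.comp_apply, ← Functor.map_comp, ← op_comp,
      SimplexCategory.const_comp]
  rw [e, e] at h
  exact h

theorem Pth.glue {R : SSet.{0}} {ι : Type} (c : ∀ n, R.obj n → ι)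
    (hc : ∀ n m (f : n ⟶ m) (ρ : R.obj n), c m (R.map f ρ) = c n ρ) (a b : R ⟶ X)
    (h : ∀ i, Pth ((piece c hc i).ι ≫ a) ((piece c hc i).ι ≫ b)) : Pth a b := by
  obtain ⟨g⟩ := KH.glue c hc (lift a b) (Over.mk (ends X)) (by
    intro i
    obtain ⟨k, h0, h1⟩ := h i
    refine ⟨Over.homMk k ?_⟩
    change k ≫ ends X = _ ≫ lift a b
    rw [ends, comp_lift, comp_lift, h0, h1])
  have hg : g.left ≫ ends X = lift a b := Over.w g
  refine ⟨g.left, ?_, ?_⟩
  · have := congrArg (fun z => z ≫ fst _ _) hg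
    simpa only [ends, Category.assoc, lift_fst] using this
  · have := congrArg (fun z => z ≫ snd _ _) hg
    simpa only [ends, Category.assoc, lift_snd] using this

/-- The key point: paths from the base points of the components give paths everywhere. -/
theorem spread [SSet.KanComplex X] {Y : SSet.{0}} (x a : Y ⟶ X)
    (ha : ∀ y : Y _⦋0⦌, Pth (ptm y ≫ x) (ptm y ≫ a))
    (hD : ∀ (y : Y _⦋0⦌) (W : SSet.{0}) (b : W ⟶ X) (u : W ⟶ (Δ[0] : SSet.{0})),
      (∀ w : W _⦋0⦌, Pth (ptm y ≫ x) (ptm w ≫ b)) → Pth (u ≫ ptm y ≫ x) b) : Pth x a := by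
  let s : Setoid (Y _⦋0⦌) :=
    { r := fun y y' => Pth (ptm y ≫ x) (ptm y' ≫ x)
      iseqv := ⟨fun y => Pth.refl _, fun h => h.symm, fun h h' => h.trans h'⟩ }
  let c : ∀ n : SimplexCategoryᵒᵖ, Y.obj n → Quotient s := fun n ρ =>
    Quotient.mk s (Y.map (SimplexCategory.const ⦋0⦌ n.unop 0).op ρ)
  have hc : ∀ n m (f : n ⟶ m) (ρ : Y.obj n), c m (Y.map f ρ) = c n ρ := by
    intro n m f ρ
    induction n using Opposite.rec with | _ n =>
    induction m using Opposite.rec with | _ m =>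
    induction n using SimplexCategory.rec with | _ n =>
    induction m using SimplexCategory.rec with | _ m =>
    have e : Y.map (SimplexCategory.const ⦋0⦌ ⦋m⦌ 0).op (Y.map f ρ) =
        Y.map (SimplexCategory.const ⦋0⦌ ⦋n⦌ (f.unop.toOrderHom 0)).op ρ := by
      rw [← CategoryTheory.comp_apply, ← Functor.map_comp]
      rfl
    change Quotient.mk s (Y.map (SimplexCategory.const ⦋0⦌ ⦋m⦌ 0).op (Y.map f ρ)) =
      Quotient.mk s (Y.map (SimplexCategory.const ⦋0⦌ ⦋n⦌ 0).op ρ)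
    rw [e]
    exact Quotient.sound (Pth.vertices ρ x _).symm
  refine Pth.glue c hc x a fun i => ?_
  by_cases hW : SSet.Nonempty ((piece c hc i : Y.Subcomplex) : SSet.{0})
  · obtain ⟨⟨y₀, hy₀⟩⟩ := hW
    have hv : ∀ y : Y _⦋0⦌, c _ y = Quotient.mk s y := by
      intro y
      change Quotient.mk s (Y.map (SimplexCategory.const ⦋0⦌ ⦋0⦌ 0).op y) = _
      congr 1
      have : SimplexCategory.const ⦋0⦌ ⦋0⦌ 0 = 𝟙 _ := by
        ext i
        fin_cases i
        rfl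
      rw [this, op_id, CategoryTheory.Functor.map_id]
      rfl
    have hr : ∀ w : ((piece c hc i : Y.Subcomplex) : SSet.{0}) _⦋0⦌,
        Pth (ptm y₀ ≫ x) (ptm w.1 ≫ x) := by
      intro w
      have h1 : c _ y₀ = i := hy₀
      have h2 : c _ w.1 = i := w.2
      rw [hv] at h1 h2
      exact Quotient.exact (h1.trans h2.symm)
    have hp : ∀ w : ((piece c hc i : Y.Subcomplex) : SSet.{0}) _⦋0⦌,
        ptm w ≫ (piece c hc i).ι = ptm w.1 := fun w => SSet.const_comp _ _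
    let u : ((piece c hc i : Y.Subcomplex) : SSet.{0}) ⟶ (Δ[0] : SSet.{0}) :=
      SSet.const (SSet.stdSimplex.obj₀Equiv.symm 0)
    have h1 := hD y₀ _ ((piece c hc i).ι ≫ x) u fun w => by
      rw [← Category.assoc, hp]
      exact hr w
    have h2 := hD y₀ _ ((piece c hc i).ι ≫ a) u fun w => by
      rw [← Category.assoc, hp]
      exact (hr w).trans (ha w.1)
    exact h1.comp h2
  · exact Pth.of_empty hW _ _

end pth

end Pool.Agent.KS6_52.KH
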