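import Mathlib
import Pool.Agent.KS6_52.KH.Valid

set_option autoImplicit false

/-!
# The remaining clauses: `⊤`, `⊥`, `∧`, `∨`, `∃`
-/

open CategoryTheory Limits MonoidalCategory CartesianMonoidalCategory Opposite Simplicial

namespace Pool.Agent.KS6_52.KH

open Pool.Agent.H642R3.Hom

variable {σ : Signature} {M : Str σ} {I : Interpretation M}

theorem G_top {Γ : List σ.Srt} {Z : SSet.{0}} (c : Z ⟶ M.ctx Γ) : G I c Fm.top := by
  obtain ⟨e⟩ := I.top Γ
  exact ⟨(Over.homMk c (Category.comp_id _) : Over.mk c ⟶ Over.mk (𝟙 (M.ctx Γ))) ≫ e.inv⟩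

theorem not_G_bot {Γ : List σ.Srt} {Z : SSet.{0}} (c : Z ⟶ M.ctx Γ) (hZ : Z.Nonempty) :
    ¬ G I c Fm.bot := by
  rintro ⟨f⟩
  obtain ⟨z⟩ := hZ
  exact (I.bot Γ _).false (f.left.app _ z)

theorem G_and {Γ : List σ.Srt} {Z : SSet.{0}} (c : Z ⟶ M.ctx Γ) (φ ψ : Fm σ Γ) :
    G I c (φ.and ψ) ↔ G I c φ ∧ G I c ψ := I.f_and _ _ _

theorem G_ex {Γ : List σ.Srt} {Z : SSet.{0}} (c : Z ⟶ M.ctx Γ) (A : σ.Srt) (φ : Fm σ (A :: Γ)) :
    G I c (φ.ex A) ↔ ∃ a : Z ⟶ M.obj A, G I (M.cons a c) φ := by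
  unfold G
  rw [Interpretation.f_ex]
  constructor
  · rintro ⟨k, hk, h⟩
    refine ⟨k ≫ M.tm (.var .zero), ?_⟩
    have hk' : k ≫ M.proj A Γ = c := hk
    have e : M.cons (k ≫ M.tm (.var .zero)) c = k := by
      rw [← hk']
      apply CartesianMonoidalCategory.hom_ext
      · exact lift_fst _ _
      · exact lift_snd _ _
    rw [e]
    exact h
  · rintro ⟨a, h⟩
    exact ⟨M.cons a c, M.cons_proj _ _, h⟩

theorem G_or_left {Γ : List σ.Srt} {Z : SSet.{0}} (c : Z ⟶ M.ctx Γ) (φ ψ : Fm σ Γ)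
    (h : G I c φ) : G I c (φ.or ψ) := by
  obtain ⟨i, j, _⟩ := I.or φ ψ
  obtain ⟨f⟩ := h
  exact ⟨f ≫ i⟩

theorem G_or_right {Γ : List σ.Srt} {Z : SSet.{0}} (c : Z ⟶ M.ctx Γ) (φ ψ : Fm σ Γ)
    (h : G I c ψ) : G I c (φ.or ψ) := by
  obtain ⟨i, j, _⟩ := I.or φ ψ
  obtain ⟨f⟩ := h
  exact ⟨f ≫ j⟩

theorem cofan_cover {X : SSet.{0}} {P Q E : Over X} (i : P ⟶ E) (j : Q ⟶ E)
    (h : IsColimit (BinaryCofan.mk i j)) (n : SimplexCategoryᵒᵖ) (t : E.left.obj n) :
    (∃ u : P.left.obj n, i.left.app n u = t) ∨ ∃ u : Q.left.obj n, j.left.app n u = t := by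
  let S : E.left.Subcomplex :=
    { obj := fun n => {t | (∃ u : P.left.obj n, i.left.app n u = t) ∨
        ∃ u : Q.left.obj n, j.left.app n u = t}
      map := by
        rintro n m f t (⟨u, rfl⟩ | ⟨u, rfl⟩)
        · exact Or.inl ⟨P.left.map f u, ConcreteCategory.congr_hom (i.left.naturality f) u⟩
        · exact Or.inr ⟨Q.left.map f u, ConcreteCategory.congr_hom (j.left.naturality f) u⟩ }
  let T : Over X := Over.mk (S.ι ≫ E.hom)
  let ι : T ⟶ E := Over.homMk S.ι rfl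
  let i' : P ⟶ T := Over.homMk
    { app := fun n => ↾fun u => (⟨i.left.app n u, Or.inl ⟨u, rfl⟩⟩ : (S : SSet.{0}).obj n)
      naturality := by
        intro n m f
        ext u
        apply Subtype.ext
        have h3 := ConcreteCategory.congr_hom (i.left.naturality f) u
        exact h3 } (by
      have := Over.w i
      rw [← this]
      rfl)
  let j' : Q ⟶ T := Over.homMk
    { app := fun n => ↾fun u => (⟨j.left.app n u, Or.inr ⟨u, rfl⟩⟩ : (S : SSet.{0}).obj n)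
      naturality := by
        intro n m f
        ext u
        apply Subtype.ext
        have h3 := ConcreteCategory.congr_hom (j.left.naturality f) u
        exact h3 } (by
      have := Over.w j
      rw [← this]
      rfl)
  obtain ⟨l, hl1, hl2⟩ := BinaryCofan.IsColimit.desc' h i' j'
  have hid : l ≫ ι = 𝟙 E := by
    apply BinaryCofan.IsColimit.hom_ext h
    · change i ≫ l ≫ ι = i ≫ 𝟙 E
      have hl1' : i ≫ l = i' := hl1
      rw [← Category.assoc, hl1', Category.comp_id]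
      ext1
      rfl
    · change j ≫ l ≫ ι = j ≫ 𝟙 E
      have hl2' : j ≫ l = j' := hl2
      rw [← Category.assoc, hl2', Category.comp_id]
      ext1
      rfl
  have h2 : (l.left.app n t).1 = t := by
    have := congrArg (fun z : E ⟶ E => z.left.app n t) hid
    exact this
  rw [← h2]
  exact (l.left.app n t).2

theorem pt_eq {Z : SSet.{0}} (g : (Δ[0] : SSet.{0}) ⟶ Z) :
    g = ptm (g.app _ (SSet.stdSimplex.obj₀Equiv.symm 0)) := by
  have h : (ptm (SSet.stdSimplex.obj₀Equiv.symm 0) : (Δ[0] : SSet.{0}) ⟶ _) = 𝟙 _ :=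
    SSet.stdSimplex.isTerminalObj₀.hom_ext _ _
  have h2 := SSet.const_comp (X := (Δ[0] : SSet.{0})) (SSet.stdSimplex.obj₀Equiv.symm 0) g
  have h3 : (ptm (SSet.stdSimplex.obj₀Equiv.symm 0) : (Δ[0] : SSet.{0}) ⟶ _) ≫ g = g := by
    rw [h, Category.id_comp]
  exact h3.symm.trans h2

theorem G_or_pt {Γ : List σ.Srt} (c : (Δ[0] : SSet.{0}) ⟶ M.ctx Γ) (φ ψ : Fm σ Γ) :
    G I c (φ.or ψ) ↔ G I c φ ∨ G I c ψ := by
  constructor
  · intro h
    obtain ⟨i, j, ⟨hc⟩⟩ := I.or φ ψ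
    obtain ⟨g⟩ := h
    have hg : g.left ≫ (I.obj (φ.or ψ)).hom = c := Over.w g
    rcases cofan_cover i j hc _ (g.left.app _ (SSet.stdSimplex.obj₀Equiv.symm 0)) with
      ⟨u, hu⟩ | ⟨u, hu⟩
    · left
      refine ⟨Over.homMk (ptm u) ?_⟩
      change ptm u ≫ (I.obj φ).hom = c
      refine Eq.trans ?_ hg
      rw [← Over.w i, ← Category.assoc, SSet.const_comp, hu]
      exact congrArg (fun z => z ≫ (I.obj (φ.or ψ)).hom) (pt_eq g.left).symm
    · right
      refine ⟨Over.homMk (ptm u) ?_⟩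
      change ptm u ≫ (I.obj ψ).hom = c
      refine Eq.trans ?_ hg
      rw [← Over.w j, ← Category.assoc, SSet.const_comp, hu]
      exact congrArg (fun z => z ≫ (I.obj (φ.or ψ)).hom) (pt_eq g.left).symm
  · rintro (h | h)
    · exact G_or_left _ _ _ h
    · exact G_or_right _ _ _ h

end Pool.Agent.KS6_52.KH
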