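import Mathlib
import Pool.Graph.R_seed8.H642R3.Hom.Kripke
import Pool.Agent.KS6_52.KH.Defs

set_option autoImplicit false

/-!
# Completeness of the calculus for coherent sequents with respect to algebras
-/

namespace Pool.Agent.KS6_52.KH

open Pool.Agent.H642R3.Hom

variable {σ : Signature}

section syn

theorem ren_sub {Γ Δ Ξ : List σ.Srt} (ρ : (A : σ.Srt) → Var Γ A → Var Δ A) (θ : Sub σ Δ Ξ)
    {A : σ.Srt} (s : Tm σ Γ A) : (s.ren ρ).sub θ = s.sub (fun A x => θ A (ρ A x)) := by
  induction s with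
  | var x => rfl
  | app f args ih => simp only [Tm.ren, Tm.sub, ih]

theorem sub_ren {Γ Δ Ξ : List σ.Srt} (θ : Sub σ Γ Δ) (ρ : (A : σ.Srt) → Var Δ A → Var Ξ A)
    {A : σ.Srt} (s : Tm σ Γ A) : (s.sub θ).ren ρ = s.sub (fun A x => (θ A x).ren ρ) := by
  induction s with
  | var x => rfl
  | app f args ih => simp only [Tm.ren, Tm.sub, ih]

theorem tm_sub_sub {Γ Δ Ξ : List σ.Srt} (θ : Sub σ Γ Δ) (θ' : Sub σ Δ Ξ)
    {A : σ.Srt} (s : Tm σ Γ A) : (s.sub θ).sub θ' = s.sub (fun A x => (θ A x).sub θ') := by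
  induction s with
  | var x => rfl
  | app f args ih => simp only [Tm.sub, ih]

theorem tm_sub_id {Γ : List σ.Srt} {A : σ.Srt} (s : Tm σ Γ A) :
    s.sub (fun _ x => .var x) = s := by
  induction s with
  | var x => rfl
  | app f args ih => simp only [Tm.sub, ih]

theorem lift_comp {Γ Δ Ξ : List σ.Srt} (θ : Sub σ Γ Δ) (θ' : Sub σ Δ Ξ) (B : σ.Srt) :
    (fun A x => ((θ.lift B) A x).sub (θ'.lift B)) =
      Sub.lift (fun A x => (θ A x).sub θ') B := by
  funext A x
  cases x with
  | zero => rfl
  | succ x =>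
    simp only [Sub.lift, ren_sub, sub_ren]

theorem lift_id {Γ : List σ.Srt} (B : σ.Srt) :
    Sub.lift (fun _ x => .var x : Sub σ Γ Γ) B = fun _ x => .var x := by
  funext A x
  cases x with
  | zero => rfl
  | succ x => rfl

theorem fm_sub_sub {Γ : List σ.Srt} (φ : Fm σ Γ) {Δ Ξ : List σ.Srt} (θ : Sub σ Γ Δ)
    (θ' : Sub σ Δ Ξ) : (φ.sub θ).sub θ' = φ.sub (fun A x => (θ A x).sub θ') := by
  induction φ generalizing Δ Ξ with
  | top => rfl
  | bot => rfl
  | eq s t => simp only [Fm.sub, tm_sub_sub]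
  | and φ ψ ih1 ih2 => simp only [Fm.sub, ih1, ih2]
  | or φ ψ ih1 ih2 => simp only [Fm.sub, ih1, ih2]
  | imp φ ψ ih1 ih2 => simp only [Fm.sub, ih1, ih2]
  | all A φ ih => simp only [Fm.sub, ih, lift_comp]
  | ex A φ ih => simp only [Fm.sub, ih, lift_comp]

theorem fm_sub_id {Γ : List σ.Srt} (φ : Fm σ Γ) : φ.sub (fun _ x => .var x) = φ := by
  induction φ with
  | top => rfl
  | bot => rfl
  | eq s t => simp only [Fm.sub, tm_sub_id]
  | and φ ψ ih1 ih2 => simp only [Fm.sub, ih1, ih2]
  | or φ ψ ih1 ih2 => simp only [Fm.sub, ih1, ih2]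
  | imp φ ψ ih1 ih2 => simp only [Fm.sub, ih1, ih2]
  | all A φ ih => simp only [Fm.sub, lift_id, ih]
  | ex A φ ih => simp only [Fm.sub, lift_id, ih]

/-- extension of a substitution -/
def scons {Γ Δ : List σ.Srt} {B : σ.Srt} (t : Tm σ Δ B) (θ : Sub σ Γ Δ) : Sub σ (B :: Γ) Δ
  | _, .zero => t
  | _, .succ x => θ _ x

theorem inst_lift {Γ Δ : List σ.Srt} {B : σ.Srt} (φ : Fm σ (B :: Γ)) (θ : Sub σ Γ Δ)
    (t : Tm σ Δ B) : (φ.sub (θ.lift B)).inst t = φ.sub (scons t θ) := by
  rw [Fm.inst, fm_sub_sub]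
  congr 1
  funext A x
  cases x with
  | zero => rfl
  | succ x =>
    simp only [Sub.lift, ren_sub, scons]
    exact tm_sub_id _

theorem ren_single {Γ : List σ.Srt} {B : σ.Srt} (u : Tm σ Γ B) {A : σ.Srt} (s : Tm σ Γ A) :
    (s.ren (fun _ => Var.succ (B := B))).sub (Sub.single u) = s := by
  rw [ren_sub]
  exact tm_sub_id s

theorem Der.weaken {Γ : List σ.Srt} {H : List (Fm σ Γ)} {φ : Fm σ Γ} (h : Der H φ) :
    ∀ {H' : List (Fm σ Γ)}, H ⊆ H' → Der H' φ := by
  have cons : ∀ {Γ : List σ.Srt} {H H' : List (Fm σ Γ)} (ψ : Fm σ Γ), H ⊆ H' →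
      ψ :: H ⊆ ψ :: H' := fun ψ h => List.cons_subset_cons _ h
  induction h with
  | hyp h => exact fun hs => .hyp (hs h)
  | topI => exact fun _ => .topI
  | botE _ ih => exact fun hs => .botE (ih hs)
  | andI _ _ ih1 ih2 => exact fun hs => .andI (ih1 hs) (ih2 hs)
  | andE₁ _ ih => exact fun hs => .andE₁ (ih hs)
  | andE₂ _ ih => exact fun hs => .andE₂ (ih hs)
  | orI₁ _ ih => exact fun hs => .orI₁ (ih hs)
  | orI₂ _ ih => exact fun hs => .orI₂ (ih hs)
  | orE _ _ _ ih ih1 ih2 =>
    exact fun hs => .orE (ih hs) (ih1 (cons _ hs)) (ih2 (cons _ hs))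
  | impI _ ih => exact fun hs => .impI (ih (cons _ hs))
  | impE _ _ ih1 ih2 => exact fun hs => .impE (ih1 hs) (ih2 hs)
  | allI _ ih => exact fun hs => .allI (ih (List.map_subset _ hs))
  | allE _ t ih => exact fun hs => .allE (ih hs) t
  | exI t _ ih => exact fun hs => .exI t (ih hs)
  | exE _ _ ih1 ih2 => exact fun hs => .exE (ih1 hs) (ih2 (cons _ (List.map_subset _ hs)))
  | eqI t => exact fun _ => .eqI t
  | eqE φ _ _ ih1 ih2 => exact fun hs => .eqE φ (ih1 hs) (ih2 hs)

theorem der_symm {Γ : List σ.Srt} {H : List (Fm σ Γ)} {A : σ.Srt} {s t : Tm σ Γ A}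
    (h : Der H (.eq s t)) : Der H (.eq t s) := by
  have h1 : Der H ((Fm.eq (.var .zero) (s.ren (fun _ => Var.succ)) : Fm σ (A :: Γ)).inst s) := by
    simp only [Fm.inst, Fm.sub, ren_single]
    exact .eqI s
  have h2 := Der.eqE _ h h1
  simp only [Fm.inst, Fm.sub, ren_single] at h2
  exact h2

theorem der_trans {Γ : List σ.Srt} {H : List (Fm σ Γ)} {A : σ.Srt} {s t u : Tm σ Γ A}
    (h : Der H (.eq s t)) (h' : Der H (.eq t u)) : Der H (.eq s u) := by
  have h1 : Der H ((Fm.eq (s.ren (fun _ => Var.succ)) (.var .zero) : Fm σ (A :: Γ)).inst t) := by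
    simp only [Fm.inst, Fm.sub, ren_single]
    exact h
  have h2 := Der.eqE _ h' h1
  simp only [Fm.inst, Fm.sub, ren_single] at h2
  exact h2

theorem der_cong {Γ : List σ.Srt} {H : List (Fm σ Γ)} (f : σ.Fn)
    (a b : (i : Fin (σ.arity f)) → Tm σ Γ (σ.dom f i)) (h : ∀ i, Der H (.eq (a i) (b i))) :
    Der H (.eq (.app f a) (.app f b)) := by
  classical
  have key : ∀ S : Finset (Fin (σ.arity f)),
      Der H (.eq (.app f a) (.app f (fun i => if i ∈ S then b i else a i))) := by
    intro S
    induction S using Finset.induction_on with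
    | empty =>
      simp only [Finset.notMem_empty, if_false]
      exact .eqI _
    | insert j S hj ih =>
      let ψ : Fm σ (σ.dom f j :: Γ) := .eq ((Tm.app f a).ren (fun _ => Var.succ))
        (.app f (Function.update (fun i => (if i ∈ S then b i else a i).ren (fun _ => Var.succ)) j
          (.var .zero)))
      have hψ : ∀ u, ψ.inst u = .eq (.app f a)
          (.app f (Function.update (fun i => if i ∈ S then b i else a i) j u)) := by
        intro u
        simp only [ψ, Fm.inst, Fm.sub, ren_single, Tm.sub]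
        congr 2
        funext i
        by_cases hi : i = j
        · subst hi
          simp only [Function.update_self]
          rfl
        · simp only [Function.update_of_ne hi, ren_single]
      have h1 : Der H (ψ.inst (a j)) := by
        rw [hψ]
        have : Function.update (fun i => if i ∈ S then b i else a i) j (a j) =
            fun i => if i ∈ S then b i else a i := by
          funext i
          by_cases hi : i = j
          · subst hi
            simp [hj]
          · simp [Function.update_of_ne hi]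
        rw [this]
        exact ih
      have h2 := Der.eqE ψ (h j) h1
      rw [hψ] at h2
      have : Function.update (fun i => if i ∈ S then b i else a i) j (b j) =
          fun i => if i ∈ insert j S then b i else a i := by
        funext i
        by_cases hi : i = j
        · subst hi
          simp
        · simp [Function.update_of_ne hi, hi]
      rw [this] at h2
      exact h2
  have := key Finset.univ
  simpa using this

end syn

end Pool.Agent.KS6_52.KH
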