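import Mathlib
import Pool.Agent.KS6_52.KH.SynA

set_option autoImplicit false

/-!
# Completeness of the calculus for coherent sequents with respect to algebras, continued
-/

namespace Pool.Agent.KS6_52.KH

open Pool.Agent.H642R3.Hom

variable {σ : Signature}

section term

variable {Γ : List σ.Srt} (E : List (Fm σ Γ))

/-- provable equality -/
def tsetoid (A : σ.Srt) : Setoid (Tm σ Γ A) where
  r s t := Der E (.eq s t)
  iseqv := ⟨fun s => .eqI s, fun h => der_symm h, fun h h' => der_trans h h'⟩

/-- the algebra of terms in the context `Γ` modulo equality provable from `E` -/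
noncomputable def termAlg : Alg σ where
  X A := Quotient (tsetoid E A)
  fn f a := Quotient.mk _ (.app f (fun i => (a i).out))
  t _ a := a
  t_fn _ _ := rfl

/-- environment given by a substitution -/
def cls {Δ : List σ.Srt} (θ : Sub σ Δ Γ) : (termAlg E).Env Δ := fun A x => Quotient.mk _ (θ A x)

theorem eval_cls {Δ : List σ.Srt} (θ : Sub σ Δ Γ) {A : σ.Srt} (s : Tm σ Δ A) :
    (termAlg E).eval (cls E θ) s = Quotient.mk (tsetoid E A) (s.sub θ) := by
  induction s with
  | var x => rfl
  | app f args ih =>
    apply Quotient.sound
    refine der_cong f _ _ fun i => ?_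
    have h := ih i
    have h1 : Quotient.mk (tsetoid E (σ.dom f i)) (Quotient.out (s := tsetoid E (σ.dom f i))
        ((termAlg E).eval (cls E θ) (args i))) = Quotient.mk _ ((args i).sub θ) := by
      rw [h]
      exact Quotient.out_eq _
    exact Quotient.exact h1

theorem mv_termAlg {Δ : List σ.Srt} (k : ℕ) (e : (termAlg E).Env Δ) :
    (termAlg E).mv k e = e := by
  funext A x
  change (fun a => a)^[k] (e A x) = e A x
  induction k with
  | zero => rfl
  | succ k ih => rw [Function.iterate_succ_apply]; exact ih

theorem der_of_force {Δ : List σ.Srt} {φ : Fm σ Δ} (hφ : Coherent φ) (θ : Sub σ Δ Γ)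
    (h : (termAlg E).force φ (cls E θ)) : Der E (φ.sub θ) := by
  induction hφ with
  | top => exact .topI
  | bot => exact h.elim
  | eq s t =>
    have h1 : (termAlg E).eval (cls E θ) s = (termAlg E).eval (cls E θ) t := h
    rw [eval_cls, eval_cls] at h1
    exact Quotient.exact h1
  | and _ _ ih1 ih2 => exact .andI (ih1 θ h.1) (ih2 θ h.2)
  | or _ _ ih1 ih2 => exact h.elim (fun h => .orI₁ (ih1 θ h)) (fun h => .orI₂ (ih2 θ h))
  | @ex Δ A φ _ ih =>
    obtain ⟨a, ha⟩ := h
    obtain ⟨t, rfl⟩ := Quotient.exists_rep a
    refine Der.exI t ?_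
    rw [inst_lift]
    apply ih
    have e : cls E (scons t θ) = (termAlg E).cons (Quotient.mk (tsetoid E A) t) (cls E θ) := by
      funext B x
      cases x <;> rfl
    rw [e]
    exact ha

end term

/-- number of nodes -/
def size : {Γ : List σ.Srt} → Fm σ Γ → ℕ
  | _, .top => 0
  | _, .bot => 0
  | _, .eq _ _ => 0
  | _, .and φ ψ => size φ + size ψ + 2
  | _, .or φ ψ => size φ + size ψ + 2
  | _, .imp φ ψ => size φ + size ψ + 2
  | _, .all _ φ => size φ + 2
  | _, .ex _ φ => size φ + 2

theorem size_sub {Γ : List σ.Srt} (φ : Fm σ Γ) {Δ : List σ.Srt} (θ : Sub σ Γ Δ) :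
    size (φ.sub θ) = size φ := by
  induction φ generalizing Δ with
  | top => rfl
  | bot => rfl
  | eq s t => rfl
  | and φ ψ ih1 ih2 => simp only [Fm.sub, size, ih1, ih2]
  | or φ ψ ih1 ih2 => simp only [Fm.sub, size, ih1, ih2]
  | imp φ ψ ih1 ih2 => simp only [Fm.sub, size, ih1, ih2]
  | all A φ ih => simp only [Fm.sub, size, ih]
  | ex A φ ih => simp only [Fm.sub, size, ih]

theorem coherent_sub {Γ : List σ.Srt} {φ : Fm σ Γ} (h : Coherent φ) {Δ : List σ.Srt}
    (θ : Sub σ Γ Δ) : Coherent (φ.sub θ) := by
  induction h generalizing Δ with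
  | top => exact .top
  | bot => exact .bot
  | eq s t => exact .eq _ _
  | and _ _ ih1 ih2 => exact .and (ih1 θ) (ih2 θ)
  | or _ _ ih1 ih2 => exact .or (ih1 θ) (ih2 θ)
  | ex _ ih => exact .ex (ih _)

/-- weight of a list of hypotheses -/
def weight {Γ : List σ.Srt} (H : List (Fm σ Γ)) : ℕ := (H.map (fun χ => size χ + 1)).sum

theorem weight_cons {Γ : List σ.Srt} (χ : Fm σ Γ) (H : List (Fm σ Γ)) :
    weight (χ :: H) = size χ + 1 + weight H := by
  simp [weight]

theorem weight_map {Γ : List σ.Srt} (H : List (Fm σ Γ)) (A : σ.Srt) :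
    weight (H.map (fun χ => χ.wk A)) = weight H := by
  induction H with
  | nil => rfl
  | cons χ H ih =>
    rw [List.map_cons, weight_cons, weight_cons, ih, Fm.wk, size_sub]

/-- A formula is an equation. -/
inductive IsEqn : {Γ : List σ.Srt} → Fm σ Γ → Prop
  | eq {Γ : List σ.Srt} {A : σ.Srt} (s t : Tm σ Γ A) : IsEqn (Fm.eq s t)

theorem isEqn_sub {Γ : List σ.Srt} {φ : Fm σ Γ} (h : IsEqn φ) {Δ : List σ.Srt}
    (θ : Sub σ Γ Δ) : IsEqn (φ.sub θ) := by
  cases h
  exact .eq _ _

/-- Algebras without motion. -/
def Still (M : Alg σ) : Prop := ∀ A a, M.t A a = a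

theorem complete_aux (n : ℕ) : ∀ {Γ : List σ.Srt} (H E : List (Fm σ Γ)) (θ : Fm σ Γ),
    weight H ≤ n → (∀ χ ∈ H, Coherent χ) → (∀ χ ∈ E, IsEqn χ) → Coherent θ →
    ¬ Der (H ++ E) θ → ∃ M : Alg σ, Still M ∧ ∃ e : M.Env Γ,
      (∀ χ ∈ H, M.force χ e) ∧ (∀ χ ∈ E, M.force χ e) ∧ ¬ M.force θ e := by
  induction n with
  | zero =>
    intro Γ H E θ hw hH hE hθ hn
    cases H with
    | cons χ H =>
      rw [weight_cons] at hw
      omega
    | nil =>
      refine ⟨termAlg E, fun _ _ => rfl, cls E (fun _ x => .var x), ?_, ?_, ?_⟩
      · intro χ hχ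
        cases hχ
      · intro χ hχ
        obtain ⟨s, t⟩ := hE χ hχ
        change (termAlg E).eval _ s = (termAlg E).eval _ t
        rw [eval_cls, eval_cls, tm_sub_id, tm_sub_id]
        exact Quotient.sound (Der.hyp hχ)
      · intro h
        apply hn
        have := der_of_force E hθ _ h
        rwa [fm_sub_id] at this
  | succ n ih =>
    intro Γ H E θ hw hH hE hθ hn
    cases H with
    | nil => exact ih [] E θ (Nat.zero_le _) hH hE hθ hn
    | cons χ H =>
      have hχ := hH χ (List.mem_cons_self ..)
      have hH' : ∀ χ ∈ H, Coherent χ := fun χ h => hH χ (List.mem_cons_of_mem _ h)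
      rw [weight_cons] at hw
      cases hχ with
      | top =>
        obtain ⟨M, hM, e, h1, h2, h3⟩ := ih H E θ (by omega) hH' hE hθ
          (fun h => hn (Der.weaken h (by intro a ha; exact List.mem_cons_of_mem _ ha)))
        refine ⟨M, hM, e, ?_, h2, h3⟩
        intro χ hχ
        rcases List.mem_cons.1 hχ with rfl | hχ
        · trivial
        · exact h1 χ hχ
      | bot => exact (hn (.botE (.hyp (List.mem_cons_self ..)))).elim
      | eq s t =>
        obtain ⟨M, hM, e, h1, h2, h3⟩ := ih H (Fm.eq s t :: E) θ (by omega) hH'
          (by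
            intro χ hχ
            rcases List.mem_cons.1 hχ with rfl | hχ
            · exact .eq _ _
            · exact hE χ hχ) hθ
          (fun h => hn (Der.weaken h (by
            intro a ha
            simp only [List.mem_append, List.mem_cons, List.cons_append] at ha ⊢
            tauto)))
        refine ⟨M, hM, e, ?_, fun χ hχ => h2 χ (List.mem_cons_of_mem _ hχ), h3⟩
        intro χ hχ
        rcases List.mem_cons.1 hχ with rfl | hχ
        · exact h2 _ (List.mem_cons_self ..)
        · exact h1 χ hχ
      | @and _ φ ψ hφ hψ =>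
        obtain ⟨M, hM, e, h1, h2, h3⟩ := ih (φ :: ψ :: H) E θ (by
            rw [weight_cons, weight_cons]
            simp only [size] at hw
            omega)
          (by
            intro χ hχ
            simp only [List.mem_cons] at hχ
            rcases hχ with rfl | rfl | hχ
            · exact hφ
            · exact hψ
            · exact hH' χ hχ) hE hθ
          (fun h => hn (by
            have h4 : Der (ψ :: φ :: (φ.and ψ :: H ++ E)) θ := Der.weaken h (by
              intro a ha
              simp only [List.mem_append, List.mem_cons, List.cons_append] at ha ⊢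
              tauto)
            exact .impE (.impE (.impI (.impI h4)) (.andE₁ (.hyp (List.mem_cons_self ..))))
              (.andE₂ (.hyp (List.mem_cons_self ..)))))
        refine ⟨M, hM, e, ?_, h2, h3⟩
        intro χ hχ
        rcases List.mem_cons.1 hχ with rfl | hχ
        · exact ⟨h1 _ (by simp), h1 _ (by simp)⟩
        · exact h1 χ (by simp [hχ])
      | @or _ φ ψ hφ hψ =>
        by_cases hd : Der (φ :: H ++ E) θ
        · have hd2 : ¬ Der (ψ :: H ++ E) θ := by
            intro hd2
            apply hn
            refine .orE (φ := φ) (ψ := ψ) (.hyp (List.mem_cons_self ..)) (Der.weaken hd ?_)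
              (Der.weaken hd2 ?_)
            · intro a ha
              simp only [List.mem_append, List.mem_cons, List.cons_append] at ha ⊢
              tauto
            · intro a ha
              simp only [List.mem_append, List.mem_cons, List.cons_append] at ha ⊢
              tauto
          obtain ⟨M, hM, e, h1, h2, h3⟩ := ih (ψ :: H) E θ (by
              rw [weight_cons]
              simp only [size] at hw
              omega)
            (by
              intro χ hχ
              rcases List.mem_cons.1 hχ with rfl | hχ
              · exact hψ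
              · exact hH' χ hχ) hE hθ hd2
          refine ⟨M, hM, e, ?_, h2, h3⟩
          intro χ hχ
          rcases List.mem_cons.1 hχ with rfl | hχ
          · exact Or.inr (h1 _ (by simp))
          · exact h1 χ (by simp [hχ])
        · obtain ⟨M, hM, e, h1, h2, h3⟩ := ih (φ :: H) E θ (by
              rw [weight_cons]
              simp only [size] at hw
              omega)
            (by
              intro χ hχ
              rcases List.mem_cons.1 hχ with rfl | hχ
              · exact hφ
              · exact hH' χ hχ) hE hθ hd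
          refine ⟨M, hM, e, ?_, h2, h3⟩
          intro χ hχ
          rcases List.mem_cons.1 hχ with rfl | hχ
          · exact Or.inl (h1 _ (by simp))
          · exact h1 χ (by simp [hχ])
      | @ex _ A φ hφ =>
        obtain ⟨M, hM, e, h1, h2, h3⟩ := ih (φ :: H.map (fun χ => χ.wk A))
          (E.map (fun χ => χ.wk A)) (θ.wk A) (by
            rw [weight_cons, weight_map]
            simp only [size] at hw
            omega)
          (by
            intro χ hχ
            rcases List.mem_cons.1 hχ with rfl | hχ
            · exact hφ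
            · obtain ⟨χ', h', rfl⟩ := List.mem_map.1 hχ
              exact coherent_sub (hH' _ h') _)
          (by
            intro χ hχ
            obtain ⟨χ', h', rfl⟩ := List.mem_map.1 hχ
            exact isEqn_sub (hE _ h') _)
          (coherent_sub hθ _)
          (fun h => hn (by
            refine Der.exE (A := A) (φ := φ) (.hyp (List.mem_cons_self ..)) (Der.weaken h ?_)
            intro a ha
            simp only [List.mem_append, List.mem_cons, List.cons_append, List.map_cons,
              List.map_append] at ha ⊢
            tauto))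
        have he : e = M.cons (e A .zero) (fun B x => e B (.succ x)) := by
          funext B x
          cases x <;> rfl
        rw [he] at h1 h2 h3
        refine ⟨M, hM, fun B x => e B (.succ x), ?_, ?_, ?_⟩
        · intro χ hχ
          rcases List.mem_cons.1 hχ with rfl | hχ
          · exact ⟨e A .zero, h1 _ (List.mem_cons_self ..)⟩
          · exact (M.force_wk _ _ _).1
              (h1 _ (List.mem_cons_of_mem _ (List.mem_map_of_mem hχ)))
        · intro χ hχ
          exact (M.force_wk _ _ _).1 (h2 _ (List.mem_map_of_mem hχ))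
        · intro h
          exact h3 ((M.force_wk _ _ _).2 h)

/-- Completeness for coherent sequents. -/
theorem complete_coherent {Γ : List σ.Srt} (H : List (Fm σ Γ)) (θ : Fm σ Γ)
    (hH : ∀ χ ∈ H, Coherent χ) (hθ : Coherent θ) (hn : ¬ Der H θ) :
    ∃ M : Alg σ, Still M ∧ ∃ e : M.Env Γ, (∀ χ ∈ H, M.force χ e) ∧ ¬ M.force θ e := by
  obtain ⟨M, hM, e, h1, _, h3⟩ := complete_aux (weight H) H [] θ le_rfl hH (by simp) hθ (by
    rwa [List.append_nil])
  exact ⟨M, hM, e, h1, h3⟩

end Pool.Agent.KS6_52.KH
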