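import Mathlib
import Pool.Agent.KS6_52.KH.Clauses
import Pool.Agent.KS6_52.KH.SynB

set_option autoImplicit false

/-!
# Discrete structures
-/

open CategoryTheory Limits MonoidalCategory CartesianMonoidalCategory Opposite Simplicial

namespace Pool.Agent.KS6_52.KH

open Pool.Agent.H642R3.Hom

/-- the discrete simplicial set -/
def disc (T : Type) : SSet.{0} := (Functor.const SimplexCategoryᵒᵖ).obj T

theorem disc_const {T : Type} {Y : SSet.{0}} (g : Y ⟶ disc T) {n m : SimplexCategoryᵒᵖ}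
    (f : n ⟶ m) (y : Y.obj n) : (g.app m (Y.map f y) : T) = g.app n y :=
  ConcreteCategory.congr_hom (g.naturality f) y

theorem disc_kan (T : Type) : SSet.KanComplex (disc T) := by
  rw [SSet.KanComplex.iff]
  intro n i f hf
  obtain ⟨j₀, hj₀⟩ : ∃ j₀ : Fin (n + 2), j₀ ≠ i := exists_ne i
  have key : ∀ (j : Fin (n + 2)) (hj : j ≠ i), f j hj = f j₀ hj₀ := by
    intro j hj
    apply SSet.yonedaEquiv.injective
    cases n with
    | zero =>
      have h0 : ∀ i j j₀ : Fin 2, j ≠ i → j₀ ≠ i → j = j₀ := by decide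
      have : j = j₀ := h0 i j j₀ hj hj₀
      subst this
      rfl
    | succ n =>
      rw [SSet.horn.isCompatible_iff] at hf
      have h2 : ∀ (j k : Fin (n + 3)) (hj : j ≠ i) (hk : k ≠ i), j < k →
          SSet.yonedaEquiv (f j hj) = SSet.yonedaEquiv (f k hk) := by
        intro j k hj hk hjk
        have h1 := congrArg SSet.yonedaEquiv (hf j k hj hk hjk)
        have h3 : ∀ (l : Fin (n + 2)) (g : (Δ[n + 1] : SSet.{0}) ⟶ disc T),
            (SSet.yonedaEquiv (SSet.stdSimplex.δ l ≫ g) : T) = SSet.yonedaEquiv g := by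
          intro l g
          exact (SSet.yonedaEquiv_naturality (SimplexCategory.δ l) g).symm
        exact (h3 _ _).symm.trans (h1.trans (h3 _ _))
      rcases lt_trichotomy j j₀ with h | h | h
      · exact h2 _ _ _ _ h
      · subst h
        rfl
      · exact (h2 _ _ _ _ h).symm
  refine ⟨SSet.yonedaEquiv.symm (SSet.yonedaEquiv (f j₀ hj₀) : T), fun j hj => ?_⟩
  rw [key j hj]
  apply SSet.yonedaEquiv.injective
  refine (SSet.yonedaEquiv_naturality (SimplexCategory.δ j) _).symm.trans ?_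
  exact Equiv.apply_symm_apply (SSet.yonedaEquiv (X := disc T) (n := ⦋n + 1⦌)) _

/-- families of paths in discrete simplicial sets are constant -/
theorem disc_path {T : Type} {Z : SSet.{0}} (h : Z ⟶ pathSpace (disc T)) :
    h ≫ endpoint (disc T) 0 = h ≫ endpoint (disc T) 1 := by
  rw [endpoint_eq, endpoint_eq]
  set g := (MonoidalClosed.uncurry h : (Δ[1] : SSet.{0}) ⊗ Z ⟶ disc T)
  have key : ∀ (i : Fin 2) (z : Z _⦋0⦌),
      (g.app (op ⦋0⦌) ((SSet.stdSimplex.obj₀Equiv.symm i, z) :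
        (Δ[1] : SSet.{0}) _⦋0⦌ × Z _⦋0⦌) : T) =
      g.app (op ⦋1⦌) ((SSet.stdSimplex.objEquiv.symm (𝟙 _),
        Z.map (SimplexCategory.const ⦋1⦌ ⦋0⦌ 0).op z) :
        (Δ[1] : SSet.{0}) _⦋1⦌ × Z _⦋1⦌) := by
    intro i z
    rw [← disc_const g (SimplexCategory.const ⦋0⦌ ⦋1⦌ i).op]
    congr 1
    refine Prod.ext rfl ?_
    change z = Z.map _ (Z.map _ z)
    rw [← CategoryTheory.comp_apply, ← Functor.map_comp, ← op_comp]
    have : SimplexCategory.const ⦋0⦌ ⦋1⦌ i ≫ SimplexCategory.const ⦋1⦌ ⦋0⦌ 0 = 𝟙 _ := by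
      ext j
      fin_cases j
      rfl
    rw [this, op_id, CategoryTheory.Functor.map_id]
    rfl
  ext n z
  have h1 : ∀ i : Fin 2, ((lift (SSet.const (SSet.stdSimplex.obj₀Equiv.symm i)) (𝟙 Z) ≫ g).app n z :
      T) = g.app (op ⦋0⦌) ((SSet.stdSimplex.obj₀Equiv.symm i,
        Z.map (SimplexCategory.const ⦋0⦌ n.unop 0).op z) :
        (Δ[1] : SSet.{0}) _⦋0⦌ × Z _⦋0⦌) := by
    intro i
    rw [← disc_const _ (SimplexCategory.const ⦋0⦌ n.unop 0).op z]
    change (g.app (op ⦋0⦌) _ : T) = _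
    congr 1
  exact (h1 0).trans (((key 0 _).trans (key 1 _).symm).trans (h1 1).symm)

end Pool.Agent.KS6_52.KH
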