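import Mathlib
import Pool.Agent.KS6_52.KH.Disc
import Pool.Graph.R_seed8.H642R3.Hom.Exist

set_option autoImplicit false

/-!
# Completeness of the homotopical semantics for coherent sequents
-/

section Part1

open CategoryTheory Limits MonoidalCategory CartesianMonoidalCategory Opposite Simplicial

namespace Pool.Agent.KS6_52.KH

open Pool.Agent.H642R3.Hom

variable {σ : Signature}

/-- The discrete structure of an algebra. -/
noncomputable def discStr (N : Alg σ) : Str σ where
  obj A := disc (N.X A)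
  fn f :=
    { app := fun n => ↾fun x => (N.fn f (fun i =>
        (Pi.π (fun i => disc (N.X (σ.dom f i))) i).app n x) : N.X (σ.cod f))
      naturality := by
        intro n m g
        ext x
        change N.fn f (fun i => (Pi.π (fun i => disc (N.X (σ.dom f i))) i).app m _) =
          N.fn f (fun i => (Pi.π (fun i => disc (N.X (σ.dom f i))) i).app n x)
        congr 1
        funext i
        exact disc_const (Pi.π (fun i => disc (N.X (σ.dom f i))) i) g x }

theorem discStr_isKan (N : Alg σ) : (discStr N).IsKan := fun A => disc_kan (N.X A)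

/-- the map from the point given by an element -/
noncomputable def elt (N : Alg σ) {A : σ.Srt} (a : N.X A) :
    (Δ[0] : SSet.{0}) ⟶ (discStr N).obj A := ptm (Z := disc (N.X A)) a

theorem elt_app (N : Alg σ) {A : σ.Srt} (a : N.X A) :
    ((elt N a).app (op ⦋0⦌) (SSet.stdSimplex.obj₀Equiv.symm 0) : N.X A) = a := rfl

theorem elt_eq (N : Alg σ) {A : σ.Srt} (g : (Δ[0] : SSet.{0}) ⟶ (discStr N).obj A) :
    g = elt N (g.app (op ⦋0⦌) (SSet.stdSimplex.obj₀Equiv.symm 0) : N.X A) := pt_eq g

theorem elt_inj (N : Alg σ) {A : σ.Srt} {a b : N.X A} (h : elt N a = elt N b) : a = b := by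
  have h1 := congrArg (fun g : (Δ[0] : SSet.{0}) ⟶ (discStr N).obj A =>
    (g.app (op ⦋0⦌) (SSet.stdSimplex.obj₀Equiv.symm 0) : N.X A)) h
  exact h1

/-- The standard 0-simplex. -/
abbrev Dz : SSet.{0} := Δ[0]

end Pool.Agent.KS6_52.KH

end Part1

section Part2

open CategoryTheory Limits MonoidalCategory CartesianMonoidalCategory Opposite

namespace Pool.Agent.KS6_52.KH

open Pool.Agent.H642R3.Hom

variable {σ : Signature}

/-- The point given by an environment. -/
noncomputable def pnt (N : Alg σ) :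
    (Γ : List σ.Srt) → N.Env Γ → (Dz ⟶ (discStr N).ctx Γ)
  | [], _ => (discStr N).nil _
  | A :: Γ, e => (discStr N).cons (A := A) (elt N (e A .zero)) (pnt N Γ (fun B x => e B (.succ x)))

end Pool.Agent.KS6_52.KH

end Part2

open CategoryTheory Limits MonoidalCategory CartesianMonoidalCategory Opposite Simplicial

namespace Pool.Agent.KS6_52.KH

open Pool.Agent.H642R3.Hom

variable {σ : Signature}

theorem pnt_cons (N : Alg σ) {Γ : List σ.Srt} {A : σ.Srt} (a : N.X A) (e : N.Env Γ) :
    (discStr N).cons (elt N a) (pnt N Γ e) = pnt N (A :: Γ) (N.cons a e) := rfl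

theorem pnt_var (N : Alg σ) {Γ : List σ.Srt} {A : σ.Srt} (x : Var Γ A) (e : N.Env Γ) :
    pnt N Γ e ≫ (discStr N).tm (.var x) = elt N (e A x) := by
  induction x with
  | zero => exact (discStr N).cons_zero _ _
  | succ x ih =>
    rw [(discStr N).tm_succ, ← Category.assoc]
    change ((discStr N).cons _ _ ≫ _) ≫ _ = _
    rw [(discStr N).cons_proj]
    exact ih _

theorem pnt_tm (N : Alg σ) {Γ : List σ.Srt} (e : N.Env Γ) {A : σ.Srt} (s : Tm σ Γ A) :
    pnt N Γ e ≫ (discStr N).tm s = elt N (N.eval e s) := by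
  induction s with
  | var x => exact pnt_var N x e
  | app f args ih =>
    refine (elt_eq N _).trans ?_
    congr 1
    change N.fn f (fun i => (Pi.π (fun i => disc (N.X (σ.dom f i))) i).app (op ⦋0⦌)
      ((Pi.lift (fun i => (discStr N).tm (args i))).app (op ⦋0⦌)
        ((pnt N Γ e).app (op ⦋0⦌) (SSet.stdSimplex.obj₀Equiv.symm 0)))) =
      N.fn f (fun i => N.eval e (args i))
    congr 1
    funext i
    have h1 : Pi.lift (fun i => (discStr N).tm (args i)) ≫
        Pi.π (fun i => (discStr N).obj (σ.dom f i)) i = (discStr N).tm (args i) :=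
      Pi.lift_π _ _
    have h2 := congrArg (fun g : (Δ[0] : SSet.{0}) ⟶ (discStr N).obj (σ.dom f i) =>
      (g.app (op ⦋0⦌) (SSet.stdSimplex.obj₀Equiv.symm 0) : N.X (σ.dom f i))) (ih i)
    rw [← h1] at h2
    exact h2

theorem G_force {N : Alg σ} {I : Interpretation (discStr N)} {Γ : List σ.Srt} {φ : Fm σ Γ}
    (hφ : Coherent φ) (e : N.Env Γ) : G I (pnt N Γ e) φ ↔ N.force φ e := by
  have hn : (Δ[0] : SSet.{0}).Nonempty := inferInstance
  induction hφ with
  | top => exact ⟨fun _ => trivial, fun _ => G_top _⟩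
  | bot => exact ⟨fun h => not_G_bot _ hn h, fun h => h.elim⟩
  | @eq Γ A s t =>
    rw [G_eq, pnt_tm, pnt_tm]
    constructor
    · rintro ⟨h, h0, h1⟩
      have h2 : h ≫ endpoint ((discStr N).obj A) 0 = h ≫ endpoint ((discStr N).obj A) 1 :=
        disc_path h
      rw [h0, h1] at h2
      exact elt_inj N h2
    · intro h
      have h' : N.eval e s = N.eval e t := h
      rw [h']
      exact path_refl _
  | and _ _ ih1 ih2 => exact (G_and _ _ _).trans (and_congr (ih1 e) (ih2 e))
  | or _ _ ih1 ih2 => exact (G_or_pt _ _ _).trans (or_congr (ih1 e) (ih2 e))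
  | @ex Γ A φ _ ih =>
    rw [G_ex]
    constructor
    · rintro ⟨a, ha⟩
      rw [elt_eq N a, pnt_cons] at ha
      exact ⟨_, (ih _).1 ha⟩
    · rintro ⟨a, ha⟩
      refine ⟨elt N a, ?_⟩
      rw [pnt_cons]
      exact (ih _).2 ha

theorem G_closure {M : Str σ} {I : Interpretation M} {Γ : List σ.Srt} (φ : Fm σ Γ)
    (h : I.True (closure φ)) : ∀ (Z : SSet.{0}) (c : Z ⟶ M.ctx Γ), G I c φ := by
  induction Γ with
  | nil =>
    intro Z c
    rw [true_iff] at h
    have h1 := G_mono c h
    rw [Category.comp_id] at h1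
    exact h1
  | cons A Γ ih =>
    intro Z c
    have h1 := ih (φ.all A) h Z (c ≫ M.proj A Γ)
    rw [G_all] at h1
    have h2 := h1 Z (𝟙 Z) (c ≫ M.tm (.var .zero))
    have e : M.cons (c ≫ M.tm (.var .zero)) (𝟙 Z ≫ c ≫ M.proj A Γ) = c := by
      rw [Category.id_comp]
      apply CartesianMonoidalCategory.hom_ext
      · exact lift_fst _ _
      · exact lift_snd _ _
    rw [e] at h2
    exact h2

theorem der_closure {Γ : List σ.Srt} (φ : Fm σ Γ) (h : Der [] φ) : Der [] (closure φ) := by
  induction Γ with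
  | nil => exact h
  | cons A Γ ih => exact ih (φ.all A) (.allI h)

/-- Completeness for coherent sequents. -/
theorem coherent_imp {Γ : List σ.Srt} (φ θ : Fm σ Γ) (hφ : Coherent φ) (hθ : Coherent θ)
    (h : ∀ M : Str σ, M.IsKan → ∀ I : Interpretation M, I.True (closure (φ.imp θ))) :
    Der [] (closure (φ.imp θ)) := by
  apply der_closure
  apply Der.impI
  by_contra hn
  obtain ⟨N, hN, e, h1, h2⟩ := complete_coherent [φ] θ (by simpa using hφ) hθ hn
  have h3 := G_closure _ (h (discStr N) (discStr_isKan N) (theInterpretation _)) _ (pnt N Γ e)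
  rw [G_imp] at h3
  have h4 := h3 _ (𝟙 _)
  rw [Category.id_comp, G_force hφ, G_force hθ] at h4
  exact h2 (h4 (h1 φ (by simp)))

/-- Completeness for universal closures of coherent formulas. -/
theorem coherent_closure {Γ : List σ.Srt} (θ : Fm σ Γ) (hθ : Coherent θ)
    (h : ∀ M : Str σ, M.IsKan → ∀ I : Interpretation M, I.True (closure θ)) :
    Der [] (closure θ) := by
  apply der_closure
  by_contra hn
  obtain ⟨N, hN, e, h1, h2⟩ := complete_coherent [] θ (by simp) hθ hn
  have h3 := G_closure _ (h (discStr N) (discStr_isKan N) (theInterpretation _)) _ (pnt N Γ e)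
  rw [G_force hθ] at h3
  exact h2 h3

end Pool.Agent.KS6_52.KH
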