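import Mathlib
import Pool.Agent.KS6_52.KH.Valid

set_option autoImplicit false

/-!
# The sentence `δ_A` is true in all structures in `Kan`, continued
-/

open CategoryTheory Limits MonoidalCategory CartesianMonoidalCategory Opposite Simplicial

namespace Pool.Agent.KS6_52.KH

open Pool.Agent.H642R3.Hom

variable {σ : Signature} {M : Str σ} {I : Interpretation M} (A : σ.Srt)

theorem G_eqXY {Γ : List σ.Srt} {Z : SSet.{0}} (c : Z ⟶ M.ctx Γ) (x y : Z ⟶ M.obj A) :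
    G I (M.cons (A := A) y (M.cons (A := A) x c)) (eqXY A Γ) ↔ Pth x y := by
  unfold eqXY
  rw [G_eq, M.tm_succ, M.cons_proj_assoc, M.cons_zero, M.cons_zero]
  exact Iff.rfl

theorem G_oneElt {Γ : List σ.Srt} {Z : SSet.{0}} (c : Z ⟶ M.ctx Γ) :
    G I c (oneElt A Γ) ↔ ∀ (Y : SSet.{0}) (_ : Y ⟶ Z) (a b : Y ⟶ M.obj A), Pth a b := by
  unfold oneElt
  rw [G_all]
  constructor
  · intro h Y f a b
    have h1 := h Y f a
    rw [G_all] at h1
    have h2 := h1 Y (𝟙 Y) b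
    rw [Category.id_comp] at h2
    exact (G_eqXY A _ _ _).1 h2
  · intro h Y f a
    rw [G_all]
    intro W g b
    rw [M.comp_cons]
    exact (G_eqXY A _ _ _).2 (h W (g ≫ f) _ _)

theorem G_const_oneElt {Γ : List σ.Srt} {Z : SSet.{0}} (c : Z ⟶ M.ctx Γ) (hZ : Z.Nonempty)
    (h : G I c (oneElt A Γ)) : I.True (oneElt A []) := by
  obtain ⟨z⟩ := hZ
  rw [true_iff, G_oneElt]
  intro Y _ a b
  exact (G_oneElt A c).1 h Y (SSet.const z) a b

section neg

variable {A}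

theorem not_G_oneElt (hA : ¬ I.True (oneElt A [])) {Γ : List σ.Srt} {Z : SSet.{0}}
    (c : Z ⟶ M.ctx Γ) (hZ : Z.Nonempty) : ¬ G I c (oneElt A Γ) :=
  fun h => hA (G_const_oneElt A c hZ h)

theorem G_ng (hA : ¬ I.True (oneElt A [])) {Γ : List σ.Srt} {Z : SSet.{0}} (c : Z ⟶ M.ctx Γ)
    (φ : Fm σ Γ) : G I c (ng A φ) ↔ ∀ z : Z _⦋0⦌, ¬ G I (ptm z ≫ c) φ := by
  unfold ng
  rw [G_imp]
  constructor
  · intro h z hz
    exact not_G_oneElt hA _ (inferInstance : (Δ[0] : SSet.{0}).Nonempty) (h _ _ hz)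
  · intro h Y f hY
    by_cases hn : Y.Nonempty
    · obtain ⟨y⟩ := hn
      exfalso
      apply h (f.app _ y)
      have h1 := G_mono (ptm y) hY
      rw [← Category.assoc, SSet.const_comp] at h1
      exact h1
    · exact G_of_empty hn _ _

theorem G_nn (hA : ¬ I.True (oneElt A [])) {Γ : List σ.Srt} {Z : SSet.{0}} (c : Z ⟶ M.ctx Γ)
    (φ : Fm σ Γ) : G I c (ng A (ng A φ)) ↔ ∀ z : Z _⦋0⦌, G I (ptm z ≫ c) φ := by
  rw [G_ng hA]
  refine forall_congr' fun z => ?_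
  rw [G_ng hA]
  push Not
  constructor
  · rintro ⟨w, hw⟩
    rwa [← Category.assoc, SSet.comp_const] at hw
  · intro h
    refine ⟨SSet.stdSimplex.obj₀Equiv.symm 0, ?_⟩
    rwa [← Category.assoc, SSet.comp_const]

theorem G_dec (hA : ¬ I.True (oneElt A [])) {Γ : List σ.Srt} {Z : SSet.{0}} (c : Z ⟶ M.ctx Γ)
    (x : Z ⟶ M.obj A) : G I (M.cons x c) (dec A Γ) ↔
      ∀ (Y : SSet.{0}) (f : Y ⟶ Z) (a : Y ⟶ M.obj A),
        (∀ y : Y _⦋0⦌, Pth (ptm y ≫ f ≫ x) (ptm y ≫ a)) → Pth (f ≫ x) a := by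
  unfold dec
  rw [G_all]
  constructor
  · intro h Y f a hy
    have h1 := h Y f a
    rw [G_imp] at h1
    have h2 := h1 Y (𝟙 Y)
    rw [Category.id_comp, M.comp_cons, G_eqXY, G_nn hA] at h2
    refine h2 fun y => ?_
    rw [M.comp_cons, M.comp_cons, G_eqXY]
    exact hy y
  · intro h Y f a
    rw [G_imp]
    intro W g hW
    rw [M.comp_cons, M.comp_cons, M.comp_cons] at hW ⊢
    rw [G_nn hA] at hW
    rw [G_eqXY, ← Category.assoc]
    refine h W (g ≫ f) (g ≫ a) fun w => ?_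
    have h1 := hW w
    rw [M.comp_cons, M.comp_cons, G_eqXY] at h1
    simpa only [Category.assoc] using h1

theorem stable_dec (hA : ¬ I.True (oneElt A [])) [SSet.KanComplex (M.obj A)] {Γ : List σ.Srt}
    {Z : SSet.{0}} (c : Z ⟶ M.ctx Γ) (x : Z ⟶ M.obj A)
    (h : G I (M.cons x c) (ng A (ng A (dec A Γ)))) : G I (M.cons x c) (dec A Γ) := by
  rw [G_nn hA] at h
  rw [G_dec hA]
  intro Y f a ha
  refine spread (f ≫ x) a ha fun y W b u hw => ?_
  have h1 := h (f.app _ y)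
  rw [M.comp_cons, G_dec hA] at h1
  have e : ptm y ≫ f ≫ x = ptm (f.app _ y) ≫ x := by
    rw [← Category.assoc, SSet.const_comp]
  rw [e] at hw ⊢
  refine h1 W u b fun w => ?_
  have e2 : ptm w ≫ u ≫ ptm (f.app _ y) ≫ x = ptm (f.app _ y) ≫ x := by
    rw [← Category.assoc, ← Category.assoc, SSet.comp_const]
  rw [e2]
  exact hw w

end neg

theorem G_dec_of_true (hA : I.True (oneElt A [])) {Γ : List σ.Srt} {Z : SSet.{0}}
    (c : Z ⟶ M.ctx Γ) (x : Z ⟶ M.obj A) : G I (M.cons x c) (dec A Γ) := by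
  rw [true_iff, G_oneElt] at hA
  unfold dec
  rw [G_all]
  intro Y f a
  rw [G_imp]
  intro W g _
  rw [M.comp_cons, M.comp_cons, M.comp_cons, G_eqXY]
  exact hA W (M.nil W) _ _

/-- `δ_A` is true in all structures in which the sort `A` is interpreted by a Kan complex. -/
theorem delta_true (hM : SSet.KanComplex (M.obj A)) : I.True (delta A) := by
  have := hM
  rw [true_iff]
  unfold delta
  rw [G_all]
  intro Y f a
  rw [G_imp]
  intro W g hW
  rw [M.comp_cons] at hW ⊢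
  by_cases hA : I.True (oneElt A [])
  · exact G_dec_of_true A hA _ _
  · exact stable_dec hA _ _ hW

end Pool.Agent.KS6_52.KH
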