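import Mathlib
import Pool.Graph.R_seed8.H642R3.Hom.Kripke
import Pool.Agent.KS6_52.KH.Defs

set_option autoImplicit false

/-!
# The sentence `δ_A` is not derivable
-/

namespace Pool.Agent.KS6_52.KH

open Pool.Agent.H642R3.Hom

variable {σ : Signature}

/-- Weak excluded middle is forced. -/
theorem wem (M : Alg σ) {Γ : List σ.Srt} (φ : Fm σ Γ) (e : M.Env Γ) :
    M.force (φ.neg.or φ.neg.neg) e := by
  by_cases h : ∃ k, M.force φ (M.mv k e)
  · obtain ⟨k, hk⟩ := h
    right
    intro l hl
    have h1 := hl k
    rw [M.mv_mv, Nat.add_comm, ← M.mv_mv] at h1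
    exact h1 (M.force_mv _ _ _ hk)
  · left
    intro k hk
    exact h ⟨k, hk⟩

theorem force_closure (M : Alg σ) {Γ : List σ.Srt} (φ : Fm σ Γ) (h : ∀ e, M.force φ e)
    (e : M.Env []) : M.force (closure φ) e := by
  induction Γ with
  | nil => exact h e
  | cons A Γ ih => exact ih (φ.all A) (fun e' k a => h _)

/-- points of the countermodel: `none` (the base point), `some none` and `some (some n)` -/
def pt : Type := Option (Option ℕ)

/-- the endomorphism -/
def step : pt → pt
  | none => none
  | some none => some (some 1)
  | some (some n) => some (some (n + 1))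

/-- The countermodel. -/
def cmod (σ : Signature) : Alg σ where
  X := fun _ => pt
  fn := fun _ _ => none
  t := fun _ => step
  t_fn := fun _ _ => rfl

theorem step_none (k : ℕ) : step^[k] none = none := by
  induction k with
  | zero => rfl
  | succ k ih => rw [Function.iterate_succ_apply]; exact ih

theorem step_nat (k n : ℕ) : step^[k] (some (some n)) = some (some (n + k)) := by
  induction k generalizing n with
  | zero => rfl
  | succ k ih =>
    rw [Function.iterate_succ_apply]
    change step^[k] (some (some (n + 1))) = _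
    rw [ih]
    congr 2
    omega

theorem step_y (k : ℕ) : step^[k + 1] (some none) = some (some (1 + k)) := by
  rw [Function.iterate_succ_apply]
  exact step_nat k 1

theorem not_oneElt (A : σ.Srt) {Γ : List σ.Srt} (e : (cmod σ).Env Γ) :
    ¬ (cmod σ).force (oneElt A Γ) e := by
  intro h
  have h1 := h 0 (none : pt) 0 (some none : pt)
  have h2 : (none : pt) = some none := h1
  cases h2

theorem force_ng (A : σ.Srt) {Γ : List σ.Srt} (φ : Fm σ Γ) (e : (cmod σ).Env Γ) :
    (cmod σ).force (ng A φ) e ↔ ∀ k, ¬ (cmod σ).force φ ((cmod σ).mv k e) :=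
  ⟨fun h k hk => not_oneElt A _ (h k hk), fun h k hk => (h k hk).elim⟩

theorem force_dec (A : σ.Srt) {Γ : List σ.Srt} (e : (cmod σ).Env (A :: Γ)) (n : ℕ)
    (he : e A .zero = (some (some (n + 1)) : pt)) : (cmod σ).force (dec A Γ) e := by
  intro k a l h
  rw [force_ng] at h
  have h0 := h 0
  rw [force_ng] at h0
  push Not at h0
  obtain ⟨m, hm⟩ := h0
  have h1 : step^[m] (step^[0] (step^[l] (step^[k] (e A .zero)))) =
    step^[m] (step^[0] (step^[l] a)) := hm
  change step^[l] (step^[k] (e A .zero)) = step^[l] a
  rw [he] at h1 ⊢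
  simp only [step_nat, Function.iterate_zero, id] at h1 ⊢
  rw [← Function.iterate_add_apply] at h1
  rcases a with _ | _ | i
  · rw [step_none] at h1
    cases h1
  · exfalso
    rcases hq : m + l with _ | q
    · rw [hq] at h1
      cases h1
    · rw [hq, step_y] at h1
      have h2 : n + 1 + k + l + m = 1 + q := by
        injection h1 with h1
        injection h1
      omega
  · rw [step_nat] at h1 ⊢
    have h2 : n + 1 + k + l + m = i + (m + l) := by
      injection h1 with h1
      injection h1
    have h3 : n + 1 + k + l = i + l := by omega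
    rw [h3]

theorem not_force_dec (A : σ.Srt) {Γ : List σ.Srt} (e : (cmod σ).Env (A :: Γ))
    (he : e A .zero = (some (some 0) : pt)) : ¬ (cmod σ).force (dec A Γ) e := by
  intro h
  have h1 := h 0 (some none : pt) 0 (by
    rw [force_ng]
    intro k
    rw [force_ng]
    push Not
    refine ⟨1, ?_⟩
    change step^[1] (step^[k] (step^[0] (step^[0] (e A .zero)))) =
      step^[1] (step^[k] (step^[0] (some none)))
    rw [he]
    simp only [Function.iterate_zero, id]
    rw [← Function.iterate_add_apply, ← Function.iterate_add_apply, Nat.add_comm 1 k, step_nat,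
      step_y, Nat.zero_add, Nat.add_comm])
  have h2 : step^[0] (step^[0] (e A .zero)) = step^[0] (some none) := h1
  rw [he] at h2
  cases h2

theorem not_force_delta (A : σ.Srt) (e : (cmod σ).Env []) : ¬ (cmod σ).force (delta A) e := by
  intro h
  refine not_force_dec A _ ?_ (h 0 (some (some 0) : pt) 0 ?_)
  · rfl
  · rw [force_ng]
    intro k
    rw [force_ng]
    push Not
    refine ⟨1, force_dec A _ k ?_⟩
    change step^[1] (step^[k] (step^[0] (some (some 0)))) = _
    rw [Function.iterate_zero, id, ← Function.iterate_add_apply, step_nat]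
    congr 2
    omega

/-- `δ_A` is not derivable, even from excluded middle for sentences and weak excluded middle for
all formulas. -/
theorem not_der_delta (A : σ.Srt) (H : List (Sentence σ)) (hH : ∀ χ ∈ H, IsEmWem χ) :
    ¬ Der H (delta A) := by
  intro h
  let e : (cmod σ).Env [] := fun A x => nomatch x
  refine not_force_delta A e ((cmod σ).sound h e fun χ hχ => ?_)
  rcases hH χ hχ with ⟨ψ, rfl⟩ | ⟨Γ, φ, rfl⟩
  · exact (cmod σ).em ψ e
  · exact force_closure _ _ (fun e' => wem _ _ _) e

end Pool.Agent.KS6_52.KH
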