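import Mathlib
import Pool.Agent.KS6_52.KH.Clauses
import Pool.Graph.R_seed8.H642R3.Hom.Exist

set_option autoImplicit false

/-!
# Signatures without sorts
-/

namespace Pool.Agent.KS6_52.KH

open Pool.Agent.H642R3.Hom

variable {σ : Signature}

/-- The classical truth value of a formula over a signature without sorts. -/
def ev : {Γ : List σ.Srt} → Fm σ Γ → Prop
  | _, .top => True
  | _, .bot => False
  | _, .eq _ _ => True
  | _, .and φ ψ => ev φ ∧ ev ψ
  | _, .or φ ψ => ev φ ∨ ev ψ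
  | _, .imp φ ψ => ev φ → ev ψ
  | _, .all _ _ => True
  | _, .ex _ _ => True

end Pool.Agent.KS6_52.KH

open CategoryTheory Limits MonoidalCategory CartesianMonoidalCategory Opposite Simplicial

namespace Pool.Agent.KS6_52.KH

open Pool.Agent.H642R3.Hom

variable {σ : Signature}

theorem der_of_ev (hσ : IsEmpty σ.Srt) {Γ : List σ.Srt} (φ : Fm σ Γ) :
    (ev φ → ∀ H, Der H φ) ∧ (¬ ev φ → ∀ H, Der H φ.neg) := by
  induction φ with
  | top => exact ⟨fun _ _ => .topI, fun h => (h trivial).elim⟩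
  | bot => exact ⟨fun h => h.elim, fun _ _ => .impI (.hyp (List.mem_cons_self ..))⟩
  | @eq _ A s t => exact (hσ.false A).elim
  | and φ ψ ih1 ih2 =>
    refine ⟨fun h H => .andI (ih1.1 h.1 H) (ih2.1 h.2 H), fun h H => ?_⟩
    by_cases h1 : ev φ
    · have h2 : ¬ ev ψ := fun h2 => h ⟨h1, h2⟩
      exact .impI (.impE (ih2.2 h2 _) (.andE₂ (.hyp (List.mem_cons_self ..))))
    · exact .impI (.impE (ih1.2 h1 _) (.andE₁ (.hyp (List.mem_cons_self ..))))
  | or φ ψ ih1 ih2 =>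
    refine ⟨fun h H => h.elim (fun h => .orI₁ (ih1.1 h H)) (fun h => .orI₂ (ih2.1 h H)),
      fun h H => ?_⟩
    have h1 : ¬ ev φ := fun h1 => h (Or.inl h1)
    have h2 : ¬ ev ψ := fun h2 => h (Or.inr h2)
    exact .impI (.orE (.hyp (List.mem_cons_self ..))
      (.impE (ih1.2 h1 _) (.hyp (List.mem_cons_self ..)))
      (.impE (ih2.2 h2 _) (.hyp (List.mem_cons_self ..))))
  | imp φ ψ ih1 ih2 =>
    refine ⟨fun h H => ?_, fun h H => ?_⟩
    · by_cases h1 : ev φ
      · exact .impI (ih2.1 (h h1) _)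
      · exact .impI (.botE (.impE (ih1.2 h1 _) (.hyp (List.mem_cons_self ..))))
    · have h1 : ev φ := by_contra fun h1 => h fun h2 => (h1 h2).elim
      have h2 : ¬ ev ψ := fun h2 => h fun _ => h2
      exact .impI (.impE (ih2.2 h2 _) (.impE (.hyp (List.mem_cons_self ..)) (ih1.1 h1 _)))
  | all A φ _ => exact (hσ.false A).elim
  | ex A φ _ => exact (hσ.false A).elim

theorem G_of_ev (hσ : IsEmpty σ.Srt) {M : Str σ} {I : Interpretation M} {Γ : List σ.Srt}
    (φ : Fm σ Γ) : (ev φ → ∀ (Z : SSet.{0}) (c : Z ⟶ M.ctx Γ), G I c φ) ∧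
      (¬ ev φ → ∀ (Z : SSet.{0}) (c : Z ⟶ M.ctx Γ), Z.Nonempty → ¬ G I c φ) := by
  induction φ with
  | top => exact ⟨fun _ _ _ => G_top _, fun h => (h trivial).elim⟩
  | bot => exact ⟨fun h => h.elim, fun _ _ _ hZ => not_G_bot _ hZ⟩
  | @eq _ A s t => exact (hσ.false A).elim
  | and φ ψ ih1 ih2 =>
    refine ⟨fun h Z c => (G_and _ _ _).2 ⟨ih1.1 h.1 Z c, ih2.1 h.2 Z c⟩, fun h Z c hZ hG => ?_⟩
    rw [G_and] at hG
    by_cases h1 : ev φ
    · exact ih2.2 (fun h2 => h ⟨h1, h2⟩) Z c hZ hG.2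
    · exact ih1.2 h1 Z c hZ hG.1
  | or φ ψ ih1 ih2 =>
    refine ⟨fun h Z c => h.elim (fun h => G_or_left _ _ _ (ih1.1 h Z c))
      (fun h => G_or_right _ _ _ (ih2.1 h Z c)), fun h Z c hZ hG => ?_⟩
    obtain ⟨z⟩ := hZ
    have hn : (Δ[0] : SSet.{0}).Nonempty := inferInstance
    rcases (G_or_pt _ _ _).1 (G_mono (ptm z) hG) with h1 | h1
    · exact ih1.2 (fun h2 => h (Or.inl h2)) _ _ hn h1
    · exact ih2.2 (fun h2 => h (Or.inr h2)) _ _ hn h1
  | imp φ ψ ih1 ih2 =>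
    refine ⟨fun h Z c => ?_, fun h Z c hZ hG => ?_⟩
    · rw [G_imp]
      intro Y f hY
      by_cases h1 : ev φ
      · exact ih2.1 (h h1) _ _
      · exact G_of_empty (fun hn => ih1.2 h1 _ _ hn hY) _ _
    · have h1 : ev φ := by_contra fun h1 => h fun h2 => (h1 h2).elim
      have h2 : ¬ ev ψ := fun h2 => h fun _ => h2
      rw [G_imp] at hG
      exact ih2.2 h2 _ _ hZ (hG Z (𝟙 Z) (ih1.1 h1 _ _))
  | all A φ _ => exact (hσ.false A).elim
  | ex A φ _ => exact (hσ.false A).elim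

/-- Completeness for signatures without sorts. -/
theorem complete_of_isEmpty (hσ : IsEmpty σ.Srt) (φ : Sentence σ)
    (h : ∀ M : Str σ, M.IsKan → ∀ I : Interpretation M, I.True φ) : Der [] φ := by
  by_cases hφ : ev φ
  · exact (der_of_ev hσ φ).1 hφ []
  · exfalso
    let M : Str σ := ⟨fun A => (hσ.false A).elim, fun f => (hσ.false (σ.cod f)).elim⟩
    have h1 := h M (fun A => (hσ.false A).elim) (theInterpretation M)
    rw [true_iff] at h1
    exact (G_of_ev hσ φ).2 hφ _ _ (⟨PUnit.unit⟩ : (𝟙_ SSet.{0}).Nonempty) h1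

end Pool.Agent.KS6_52.KH
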