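import Mathlib
import Pool.Agent.KS6_52.KH.Clauses
import Pool.Agent.KS6_52.KH.Defs

set_option autoImplicit false

/-!
# Homotopy invariance and weak excluded middle
-/

open CategoryTheory Limits MonoidalCategory CartesianMonoidalCategory Opposite Simplicial

namespace Pool.Agent.KS6_52.KH

open Pool.Agent.H642R3.Hom

variable {σ : Signature} {M : Str σ} {I : Interpretation M}

/-- The disjoint union. -/
def sumS (P Q : SSet.{0}) : SSet.{0} where
  obj n := P.obj n ⊕ Q.obj n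
  map f := ↾(Sum.map (fun x => P.map f x) (fun x => Q.map f x))
  map_id n := by
    ext x
    rcases x with x | x
    · change Sum.inl (P.map (𝟙 n) x) = Sum.inl x
      rw [CategoryTheory.Functor.map_id]
      rfl
    · change Sum.inr (Q.map (𝟙 n) x) = Sum.inr x
      rw [CategoryTheory.Functor.map_id]
      rfl
  map_comp f g := by
    ext x
    rcases x with x | x
    · change Sum.inl (P.map (f ≫ g) x) = Sum.inl (P.map g (P.map f x))
      rw [CategoryTheory.Functor.map_comp]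
      rfl
    · change Sum.inr (Q.map (f ≫ g) x) = Sum.inr (Q.map g (Q.map f x))
      rw [CategoryTheory.Functor.map_comp]
      rfl

/-- The disjoint union over `X`. -/
def sumOver {X : SSet.{0}} (P Q : Over X) : Over X :=
  Over.mk (Y := sumS P.left Q.left)
    { app := fun n => ↾(Sum.elim (fun x => P.hom.app n x) (fun x => Q.hom.app n x))
      naturality := by
        intro n m f
        ext x
        rcases x with x | x
        · exact ConcreteCategory.congr_hom (P.hom.naturality f) x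
        · exact ConcreteCategory.congr_hom (Q.hom.naturality f) x }

/-- the first inclusion -/
def sumInl {X : SSet.{0}} (P Q : Over X) : P ⟶ sumOver P Q :=
  Over.homMk (V := sumOver P Q)
    { app := fun n => ↾(fun x => (Sum.inl x : P.left.obj n ⊕ Q.left.obj n))
      naturality := fun n m f => rfl } rfl

/-- the second inclusion -/
def sumInr {X : SSet.{0}} (P Q : Over X) : Q ⟶ sumOver P Q :=
  Over.homMk (V := sumOver P Q)
    { app := fun n => ↾(fun x => (Sum.inr x : P.left.obj n ⊕ Q.left.obj n))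
      naturality := fun n m f => rfl } rfl

theorem split_sum {X : SSet.{0}} (P Q : Over X) {Y : SSet.{0}} (k : Y ⟶ X)
    (g : Over.mk k ⟶ sumOver P Q) : ∃ (b : ∀ n, Y.obj n → Bool)
      (hb : ∀ n m (f : n ⟶ m) (ρ : Y.obj n), b m (Y.map f ρ) = b n ρ),
      Nonempty (Over.mk ((piece b hb true).ι ≫ k) ⟶ P) ∧
      Nonempty (Over.mk ((piece b hb false).ι ≫ k) ⟶ Q) := by
  let G' : ∀ n, Y.obj n → P.left.obj n ⊕ Q.left.obj n := fun n ρ => g.left.app n ρ
  have hG : ∀ n m (f : n ⟶ m) (ρ : Y.obj n), G' m (Y.map f ρ) =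
      Sum.map (fun x => P.left.map f x) (fun x => Q.left.map f x) (G' n ρ) :=
    fun n m f ρ => ConcreteCategory.congr_hom (g.left.naturality f) ρ
  have hk : ∀ n (ρ : Y.obj n), Sum.elim (fun x => P.hom.app n x) (fun x => Q.hom.app n x)
      (G' n ρ) = k.app n ρ := fun n ρ =>
    ConcreteCategory.congr_hom (congrArg (fun z : Y ⟶ X => z.app n) (Over.w g)) ρ
  refine ⟨fun n ρ => (G' n ρ).isLeft, ?_, ?_, ?_⟩
  · intro n m f ρ
    simp only [hG]
    rcases G' n ρ with x | x <;> rfl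
  · have hl : ∀ n (ρ : Y.obj n) (h : (G' n ρ).isLeft = true),
        G' n ρ = Sum.inl ((G' n ρ).getLeft h) := fun n ρ h => (Sum.inl_getLeft _ h).symm
    refine ⟨Over.homMk
      { app := fun n => ↾(fun ρ => (G' n ρ.1).getLeft ρ.2)
        naturality := ?_ } ?_⟩
    · intro n m f
      ext ρ
      apply Sum.inl_injective (β := Q.left.obj m)
      have h1 := hG n m f ρ.1
      rw [hl n ρ.1 ρ.2, Sum.map_inl] at h1
      exact (hl m _ _).symm.trans h1
    · ext n ρ
      have h1 := hk n ρ.1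
      rw [hl n ρ.1 ρ.2, Sum.elim_inl] at h1
      exact h1
  · have hl : ∀ n (ρ : Y.obj n) (h : (G' n ρ).isLeft = false),
        G' n ρ = Sum.inr ((G' n ρ).getRight (Sum.isLeft_eq_false.1 h)) :=
      fun n ρ h => (Sum.inr_getRight _ _).symm
    refine ⟨Over.homMk
      { app := fun n => ↾(fun ρ => (G' n ρ.1).getRight (Sum.isLeft_eq_false.1 ρ.2))
        naturality := ?_ } ?_⟩
    · intro n m f
      ext ρ
      apply Sum.inr_injective (α := P.left.obj m)
      have h1 := hG n m f ρ.1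
      rw [hl n ρ.1 ρ.2, Sum.map_inr] at h1
      exact (hl m (Y.map f ρ.1) (by rw [h1]; rfl)).symm.trans h1
    · ext n ρ
      have h1 := hk n ρ.1
      rw [hl n ρ.1 ρ.2, Sum.elim_inr] at h1
      exact h1

theorem G_or_split {Γ : List σ.Srt} {Y : SSet.{0}} (c : Y ⟶ M.ctx Γ) (φ ψ : Fm σ Γ)
    (h : G I c (φ.or ψ)) : ∃ (b : ∀ n, Y.obj n → Bool)
      (hb : ∀ n m (f : n ⟶ m) (ρ : Y.obj n), b m (Y.map f ρ) = b n ρ),
      G I ((piece b hb true).ι ≫ c) φ ∧ G I ((piece b hb false).ι ≫ c) ψ := by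
  obtain ⟨i, j, ⟨hc⟩⟩ := I.or φ ψ
  obtain ⟨l, _, _⟩ := BinaryCofan.IsColimit.desc' hc (sumInl (I.obj φ) (I.obj ψ))
    (sumInr (I.obj φ) (I.obj ψ))
  obtain ⟨g⟩ := h
  exact split_sum (I.obj φ) (I.obj ψ) c (g ≫ l)

theorem G_glue {Γ : List σ.Srt} {Y : SSet.{0}} (c : Y ⟶ M.ctx Γ) (b : ∀ n, Y.obj n → Bool)
    (hb : ∀ n m (f : n ⟶ m) (ρ : Y.obj n), b m (Y.map f ρ) = b n ρ) (φ : Fm σ Γ)
    (h : ∀ i, G I ((piece b hb i).ι ≫ c) φ) : G I c φ := glue b hb c (I.obj φ) h

/-- Homotopic maps to a context. -/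
def Hty {Γ : List σ.Srt} {Y : SSet.{0}} (c c' : Y ⟶ M.ctx Γ) : Prop :=
  ∀ (A : σ.Srt) (x : Var Γ A), Pth (c ≫ M.tm (.var x)) (c' ≫ M.tm (.var x))

theorem Hty.mono {Γ : List σ.Srt} {Y Z : SSet.{0}} {c c' : Z ⟶ M.ctx Γ} (h : Hty c c')
    (f : Y ⟶ Z) : Hty (f ≫ c) (f ≫ c') := by
  intro A x
  have h1 := (h A x).mono f
  rwa [← Category.assoc, ← Category.assoc] at h1

theorem Hty.symm (hM : M.IsKan) {Γ : List σ.Srt} {Y : SSet.{0}} {c c' : Y ⟶ M.ctx Γ}
    (h : Hty c c') : Hty c' c := fun A x =>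
  have := hM A
  (h A x).symm

theorem Hty.cons {Γ : List σ.Srt} {Y : SSet.{0}} {c c' : Y ⟶ M.ctx Γ} (h : Hty c c')
    {B : σ.Srt} (a : Y ⟶ M.obj B) : Hty (M.cons a c) (M.cons a c') := by
  intro A x
  cases x with
  | zero =>
    rw [M.cons_zero, M.cons_zero]
    exact Pth.refl a
  | succ x =>
    rw [M.tm_succ, M.cons_proj_assoc, M.cons_proj_assoc]
    exact h A x

theorem Hty.tm {Γ : List σ.Srt} {Y : SSet.{0}} {c c' : Y ⟶ M.ctx Γ} (h : Hty c c')
    {A : σ.Srt} (s : Tm σ Γ A) : Pth (c ≫ M.tm s) (c' ≫ M.tm s) := by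
  induction s with
  | var x => exact h _ x
  | app f args ih =>
    choose k hk using ih
    let K : (Δ[1] : SSet.{0}) ⊗ Y ⟶ M.obj (σ.cod f) :=
      Pi.lift (fun i => (MonoidalClosed.uncurry (k i) : (Δ[1] : SSet.{0}) ⊗ Y ⟶ _)) ≫ M.fn f
    have key : ∀ (j : Fin 2) (d : Y ⟶ M.ctx Γ)
        (_ : ∀ i, k i ≫ endpoint _ j = d ≫ M.tm (args i)),
        (MonoidalClosed.curry K : Y ⟶ pathSpace _) ≫ endpoint _ j = d ≫ M.tm (.app f args) := by
      intro j d hd
      refine (curry_endpoint K j).trans ?_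
      have h1 : lift (SSet.const (SSet.stdSimplex.obj₀Equiv.symm j)) (𝟙 Y) ≫
          Pi.lift (fun i => (MonoidalClosed.uncurry (k i) : (Δ[1] : SSet.{0}) ⊗ Y ⟶ _)) =
          d ≫ Pi.lift (fun i => M.tm (args i)) := by
        apply Pi.hom_ext
        intro i
        rw [Category.assoc, Category.assoc, Pi.lift_π, Pi.lift_π, ← hd i]
        exact (endpoint_eq (k i) j).symm
      calc _ = (lift (SSet.const (SSet.stdSimplex.obj₀Equiv.symm j)) (𝟙 Y) ≫
          Pi.lift (fun i => (MonoidalClosed.uncurry (k i) : (Δ[1] : SSet.{0}) ⊗ Y ⟶ _))) ≫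
            M.fn f := (Category.assoc _ _ _).symm
        _ = (d ≫ Pi.lift (fun i => M.tm (args i))) ≫ M.fn f := by rw [h1]
        _ = _ := Category.assoc _ _ _
    exact ⟨MonoidalClosed.curry K, key 0 c fun i => (hk i).1, key 1 c' fun i => (hk i).2⟩

/-- Homotopy invariance of forcing. -/
theorem G_hty (hM : M.IsKan) {Γ : List σ.Srt} (φ : Fm σ Γ) :
    ∀ {Y : SSet.{0}} {c c' : Y ⟶ M.ctx Γ}, Hty c c' → G I c φ → G I c' φ := by
  induction φ with
  | top => exact fun _ _ => G_top _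
  | bot =>
    intro Y c c' _ hG
    by_cases hn : Y.Nonempty
    · exact (not_G_bot _ hn hG).elim
    · exact G_of_empty hn _ _
  | @eq Γ A s t =>
    intro Y c c' h hG
    have := hM A
    rw [G_eq] at hG ⊢
    have h1 : Pth (c ≫ M.tm s) (c ≫ M.tm t) := hG
    exact ((h.tm s).comp h1).trans (h.tm t)
  | and φ ψ ih1 ih2 =>
    intro Y c c' h hG
    rw [G_and] at hG ⊢
    exact ⟨ih1 h hG.1, ih2 h hG.2⟩
  | or φ ψ ih1 ih2 =>
    intro Y c c' h hG
    obtain ⟨b, hb, h1, h2⟩ := G_or_split _ _ _ hG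
    refine G_glue c' b hb _ fun i => ?_
    cases i with
    | true => exact G_or_left _ _ _ (ih1 (h.mono _) h1)
    | false => exact G_or_right _ _ _ (ih2 (h.mono _) h2)
  | imp φ ψ ih1 ih2 =>
    intro Y c c' h hG
    rw [G_imp] at hG ⊢
    intro Z f hZ
    exact ih2 (h.mono f) (hG Z f (ih1 ((h.mono f).symm hM) hZ))
  | all A φ ih =>
    intro Y c c' h hG
    rw [G_all] at hG ⊢
    intro Z f a
    exact ih ((h.mono f).cons a) (hG Z f a)
  | ex A φ ih =>
    intro Y c c' h hG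
    rw [G_ex] at hG ⊢
    obtain ⟨a, ha⟩ := hG
    exact ⟨a, ih (h.cons a) ha⟩

theorem G_neg {Γ : List σ.Srt} {Z : SSet.{0}} (c : Z ⟶ M.ctx Γ)
    (φ : Fm σ Γ) : G I c φ.neg ↔ ∀ z : Z _⦋0⦌, ¬ G I (ptm z ≫ c) φ := by
  unfold Fm.neg
  rw [G_imp]
  constructor
  · intro h z hz
    exact not_G_bot _ (inferInstance : (Δ[0] : SSet.{0}).Nonempty) (h _ _ hz)
  · intro h Y f hY
    by_cases hn : Y.Nonempty
    · obtain ⟨y⟩ := hn
      exfalso
      apply h (f.app _ y)
      have h1 := G_mono (ptm y) hY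
      rw [← Category.assoc, SSet.const_comp] at h1
      exact h1
    · exact G_of_empty hn _ _

theorem G_wem (hM : M.IsKan) {Γ : List σ.Srt} (φ : Fm σ Γ) {Y : SSet.{0}} (c : Y ⟶ M.ctx Γ) :
    G I c (φ.neg.or φ.neg.neg) := by
  classical
  let b : ∀ n : SimplexCategoryᵒᵖ, Y.obj n → Bool := fun n ρ =>
    decide (G I (ptm (Y.map (SimplexCategory.const ⦋0⦌ n.unop 0).op ρ) ≫ c) φ)
  have hb : ∀ n m (f : n ⟶ m) (ρ : Y.obj n), b m (Y.map f ρ) = b n ρ := by
    intro n m f ρ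
    induction n using Opposite.rec with | _ n =>
    induction m using Opposite.rec with | _ m =>
    induction n using SimplexCategory.rec with | _ n =>
    induction m using SimplexCategory.rec with | _ m =>
    have e : Y.map (SimplexCategory.const ⦋0⦌ ⦋m⦌ 0).op (Y.map f ρ) =
        Y.map (SimplexCategory.const ⦋0⦌ ⦋n⦌ (f.unop.toOrderHom 0)).op ρ := by
      rw [← CategoryTheory.comp_apply, ← Functor.map_comp]
      rfl
    change decide (G I (ptm (Y.map (SimplexCategory.const ⦋0⦌ ⦋m⦌ 0).op (Y.map f ρ)) ≫ c) φ) =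
      decide (G I (ptm (Y.map (SimplexCategory.const ⦋0⦌ ⦋n⦌ 0).op ρ) ≫ c) φ)
    rw [e]
    have hh : Hty (ptm (Y.map (SimplexCategory.const ⦋0⦌ ⦋n⦌ 0).op ρ) ≫ c)
        (ptm (Y.map (SimplexCategory.const ⦋0⦌ ⦋n⦌ (f.unop.toOrderHom 0)).op ρ) ≫ c) := by
      intro A x
      have := hM A
      have h1 := Pth.vertices ρ (c ≫ M.tm (.var x)) (f.unop.toOrderHom 0)
      rwa [← Category.assoc, ← Category.assoc] at h1
    exact decide_eq_decide.2 ⟨G_hty hM φ (hh.symm hM), G_hty hM φ hh⟩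
  have hv : ∀ y : Y _⦋0⦌, b _ y = decide (G I (ptm y ≫ c) φ) := by
    intro y
    change decide (G I (ptm (Y.map (SimplexCategory.const ⦋0⦌ ⦋0⦌ 0).op y) ≫ c) φ) = _
    have : SimplexCategory.const ⦋0⦌ ⦋0⦌ 0 = 𝟙 _ := by
      ext i
      fin_cases i
      rfl
    rw [this, op_id, CategoryTheory.Functor.map_id]
    rfl
  have hp : ∀ (i : Bool) (w : ((piece b hb i : Y.Subcomplex) : SSet.{0}) _⦋0⦌),
      ptm w ≫ (piece b hb i).ι = ptm w.1 := fun i w => SSet.const_comp _ _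
  refine G_glue c b hb _ fun i => ?_
  cases i with
  | true =>
    apply G_or_right
    rw [G_neg]
    intro w
    rw [G_neg]
    intro h
    have h1 := h (SSet.stdSimplex.obj₀Equiv.symm 0)
    rw [← Category.assoc, SSet.comp_const, ← Category.assoc, hp] at h1
    have h2 : b _ w.1 = true := w.2
    rw [hv, decide_eq_true_iff] at h2
    exact h1 h2
  | false =>
    apply G_or_left
    rw [G_neg]
    intro w h
    rw [← Category.assoc, hp] at h
    have h2 : b _ w.1 = false := w.2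
    rw [hv, decide_eq_false_iff_not] at h2
    exact h2 h

theorem true_closure {Γ : List σ.Srt} (φ : Fm σ Γ)
    (h : ∀ (Z : SSet.{0}) (c : Z ⟶ M.ctx Γ), G I c φ) : I.True (closure φ) := by
  induction Γ with
  | nil => exact (true_iff _).2 (h _ _)
  | cons A Γ ih =>
    refine ih (φ.all A) fun Z c => ?_
    rw [G_all]
    exact fun Y f a => h _ _

/-- The axioms are true in all structures in `Kan`. -/
theorem axioms_true (hM : M.IsKan) (χ : Sentence σ) (hχ : IsEmWem χ) : I.True χ := by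
  rcases hχ with ⟨ψ, rfl⟩ | ⟨Γ, φ, rfl⟩
  · rw [true_iff]
    by_cases h : I.True ψ
    · exact G_or_left _ _ _ ((true_iff ψ).1 h)
    · apply G_or_right
      rw [G_neg]
      intro z hz
      apply h
      obtain ⟨g⟩ := hz
      exact ⟨g.left.app _ (SSet.stdSimplex.obj₀Equiv.symm 0)⟩
  · exact true_closure _ fun Z c => G_wem hM φ c

end Pool.Agent.KS6_52.KH
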